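import Mathlib

/-!
# Points most of whose lines are deleted

`F` a finite field with `m` elements; points `(l, y)`, lines `(d, x)`; the line `(d, x)` contains
the point `(l, x + u l * d)` of the column `l`.
-/

set_option autoImplicit false

namespace Pool.Agent.TH482

open Finset

variable {F : Type} [Field F] [Fintype F] [DecidableEq F] {b : ℕ} (u : Fin b → F)

/-- the point `v` is on the line `L` -/
def On (v : Fin b × F) (L : F × F) : Prop := v.2 = L.2 + u v.1 * L.1

instance (v : Fin b × F) (L : F × F) : Decidable (On u v L) := by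
  unfold On
  infer_instance

omit [Fintype F] [DecidableEq F] in
theorem on_unique (hu : Function.Injective u) {v v' : Fin b × F} (hv : v ≠ v') {L L' : F × F}
    (h1 : On u v L) (h2 : On u v' L) (h3 : On u v L') (h4 : On u v' L') : L = L' := by
  unfold On at h1 h2 h3 h4
  by_cases hl : v.1 = v'.1
  · exfalso
    apply hv
    refine Prod.ext hl ?_
    rw [h1, h2, hl]
  · have hne : u v.1 - u v'.1 ≠ 0 := sub_ne_zero.2 (fun h => hl (hu h))
    have e1 : (u v.1 - u v'.1) * L.1 = (u v.1 - u v'.1) * L'.1 := by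
      have : v.2 - v'.2 = (u v.1 - u v'.1) * L.1 := by rw [h1, h2]; ring
      have h' : v.2 - v'.2 = (u v.1 - u v'.1) * L'.1 := by rw [h3, h4]; ring
      rw [← this, h']
    have e2 : L.1 = L'.1 := mul_left_cancel₀ hne e1
    have e3 : L.2 = L'.2 := by
      have : L.2 + u v.1 * L.1 = L'.2 + u v.1 * L'.1 := by rw [← h1, ← h3]
      rw [e2] at this
      exact add_right_cancel this
    exact Prod.ext e2 e3

/-- the lines through `v` -/
theorem card_on (v : Fin b × F) (X : Finset (F × F)) :
    (X.filter (fun L => On u v L)).card =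
      (univ.filter (fun d : F => (d, v.2 - u v.1 * d) ∈ X)).card := by
  symm
  refine Finset.card_bij (fun d _ => (d, v.2 - u v.1 * d)) ?_ ?_ ?_
  · intro d hd
    rw [mem_filter] at hd ⊢
    refine ⟨hd.2, ?_⟩
    unfold On
    ring
  · intro d _ d' _ h
    exact (Prod.mk.inj h).1
  · rintro ⟨d, x⟩ hL
    rw [mem_filter] at hL
    have hx : x = v.2 - u v.1 * d := by
      have := hL.2
      unfold On at this
      rw [this]
      ring
    refine ⟨d, ?_, by rw [hx]⟩
    rw [mem_filter]
    refine ⟨mem_univ _, ?_⟩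
    rw [← hx]
    exact hL.1

theorem bad_points (hu : Function.Injective u) (X : Finset (F × F)) (B : Finset (Fin b × F))
    (hX : 8 * X.card ≤ Fintype.card F ^ 2)
    (hB : ∀ v ∈ B, 3 * Fintype.card F ≤
      4 * (univ.filter (fun d : F => (d, v.2 - u v.1 * d) ∈ X)).card) :
    B.card ≤ Fintype.card F := by
  classical
  set m := Fintype.card F with hm
  have hm0 : 0 < m := Fintype.card_pos
  let n : F × F → ℕ := fun L => (B.filter (fun v => On u v L)).card
  -- incidences
  have h1 : ∑ L ∈ X, n L = ∑ v ∈ B, (univ.filter (fun d : F => (d, v.2 - u v.1 * d) ∈ X)).card := by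
    simp only [n, card_filter]
    rw [sum_comm]
    refine sum_congr rfl fun v _ => ?_
    rw [← card_filter, ← card_filter]
    exact card_on u v X
  have h2 : 3 * m * B.card ≤ 4 * ∑ L ∈ X, n L := by
    rw [h1, mul_sum]
    calc 3 * m * B.card = ∑ v ∈ B, 3 * m := by rw [sum_const, smul_eq_mul, mul_comm]
      _ ≤ _ := sum_le_sum hB
  -- second moment
  have h3 : ∑ L : F × F, n L ^ 2 ≤ m * B.card + B.card ^ 2 := by
    have e1 : ∀ L, n L ^ 2 = ∑ v ∈ B, ∑ v' ∈ B, if On u v L ∧ On u v' L then 1 else 0 := by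
      intro L
      simp only [n, card_filter]
      rw [pow_two, sum_mul_sum]
      refine sum_congr rfl fun v _ => sum_congr rfl fun v' _ => ?_
      by_cases h : On u v L <;> by_cases h' : On u v' L <;> simp [h, h']
    rw [sum_congr rfl fun L _ => e1 L]
    rw [sum_comm]
    have e2 : ∀ v ∈ B, ∑ L : F × F, ∑ v' ∈ B, (if On u v L ∧ On u v' L then 1 else 0) ≤
        m + B.card := by
      intro v hv
      rw [sum_comm]
      have e3 : ∀ v' ∈ B, ∑ L : F × F, (if On u v L ∧ On u v' L then 1 else 0) ≤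
          (if v = v' then m else 0) + 1 := by
        intro v' _
        rw [← card_filter]
        by_cases hvv : v = v'
        · subst hvv
          rw [if_pos rfl]
          simp only [and_self]
          rw [card_on u v univ]
          calc _ ≤ m := card_le_univ _
            _ ≤ m + 1 := Nat.le_succ _
        · rw [if_neg hvv, zero_add, card_le_one]
          intro L hL L' hL'
          rw [mem_filter] at hL hL'
          exact on_unique u hu hvv hL.2.1 hL.2.2 hL'.2.1 hL'.2.2
      calc _ ≤ ∑ v' ∈ B, ((if v = v' then m else 0) + 1) := sum_le_sum e3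
        _ ≤ m + B.card := by
            rw [sum_add_distrib, sum_ite_eq, if_pos hv, sum_const, smul_eq_mul, mul_one]
    calc _ ≤ ∑ v ∈ B, (m + B.card) := sum_le_sum e2
      _ = _ := by rw [sum_const, smul_eq_mul]; ring
  have h4 : (∑ L ∈ X, n L) ^ 2 ≤ X.card * ∑ L ∈ X, n L ^ 2 := sq_sum_le_card_mul_sum_sq
  have h5 : ∑ L ∈ X, n L ^ 2 ≤ ∑ L : F × F, n L ^ 2 := sum_le_sum_of_subset (subset_univ _)
  have h6 : (3 * m * B.card) ^ 2 ≤ 16 * (X.card * (m * B.card + B.card ^ 2)) := by
    calc (3 * m * B.card) ^ 2 ≤ (4 * ∑ L ∈ X, n L) ^ 2 := Nat.pow_le_pow_left h2 2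
      _ = 16 * (∑ L ∈ X, n L) ^ 2 := by ring
      _ ≤ 16 * (X.card * ∑ L ∈ X, n L ^ 2) := Nat.mul_le_mul_left _ h4
      _ ≤ _ := Nat.mul_le_mul_left _ (Nat.mul_le_mul_left _ (h5.trans h3))
  by_contra hcon
  rw [not_le] at hcon
  have h7 : 16 * (X.card * (m * B.card + B.card ^ 2)) ≤ 2 * m ^ 2 * (m * B.card + B.card ^ 2) := by
    calc _ = 2 * (8 * X.card) * (m * B.card + B.card ^ 2) := by ring
      _ ≤ _ := Nat.mul_le_mul_right _ (Nat.mul_le_mul_left _ hX)
  have h8 : m * B.card + B.card ^ 2 < 2 * B.card ^ 2 := by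
    have : m * B.card < B.card * B.card := Nat.mul_lt_mul_of_pos_right hcon (by omega)
    nlinarith
  have h9 : 2 * m ^ 2 * (m * B.card + B.card ^ 2) < 2 * m ^ 2 * (2 * B.card ^ 2) :=
    Nat.mul_lt_mul_of_pos_left h8 (by positivity)
  have h10 : (3 * m * B.card) ^ 2 < 4 * (m ^ 2 * B.card ^ 2) := by
    calc _ ≤ _ := h6
      _ ≤ _ := h7
      _ < _ := h9
      _ = _ := by ring
  have h11 : 0 < m ^ 2 * B.card ^ 2 := by
    have : 0 < B.card := by omega
    positivity
  nlinarith

end Pool.Agent.TH482
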