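import Pool.Agent.TH482.Defs

/-!
# Products of gadgets
-/

set_option autoImplicit false

namespace Pool.Agent.TH482

open Finset

theorem gad_prod {P X Ω : Type} [Fintype P] [Fintype X] [Fintype Ω]
    (c : Ω → P → X) (t J : ℕ) (δ : ℝ) (hδ0 : 0 ≤ δ) (hδ1 : δ ≤ 1) (h : Gad P X Ω c t δ) :
    Gad (Fin (2 * J) × P) X (Fin (2 * J) → Ω) (fun ω q => c (ω q.1) q.2) (J * t) (δ ^ J) := by
  classical
  intro T hT
  let Tj : Fin (2 * J) → Finset (P × X) := fun j => univ.filter (fun q => ((j, q.1), q.2) ∈ T)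
  have hTj : ∑ j, (Tj j).card ≤ T.card := by
    rw [← card_sigma]
    refine Finset.card_le_card_of_injOn (fun q : (Σ _ : Fin (2 * J), P × X) => ((q.1, q.2.1), q.2.2)) ?_ ?_
    · intro q hq
      have hq' := (mem_sigma.1 hq).2
      simp only [Tj, mem_filter, mem_univ, true_and] at hq'
      exact hq'
    · rintro ⟨j, p, x⟩ _ ⟨j', p', x'⟩ _ hqq
      simp only [Prod.mk.injEq] at hqq
      obtain ⟨⟨h1, h2⟩, h3⟩ := hqq
      subst h1; subst h2; subst h3
      rfl
  let G : Finset (Fin (2 * J)) := univ.filter (fun j => (Tj j).card ≤ t)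
  have hG : J ≤ G.card := by
    have h1 : (univ.filter (fun j : Fin (2 * J) => ¬ (Tj j).card ≤ t)).card * (t + 1) ≤ J * t := by
      calc (univ.filter (fun j : Fin (2 * J) => ¬ (Tj j).card ≤ t)).card * (t + 1)
          = ∑ j ∈ univ.filter (fun j : Fin (2 * J) => ¬ (Tj j).card ≤ t), (t + 1) := by
            rw [sum_const, smul_eq_mul]
        _ ≤ ∑ j ∈ univ.filter (fun j : Fin (2 * J) => ¬ (Tj j).card ≤ t), (Tj j).card := by
            refine sum_le_sum fun j hj => ?_
            have := (mem_filter.1 hj).2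
            omega
        _ ≤ ∑ j, (Tj j).card := sum_le_sum_of_subset (filter_subset _ _)
        _ ≤ T.card := hTj
        _ ≤ J * t := hT
    have h2 : (univ.filter (fun j : Fin (2 * J) => ¬ (Tj j).card ≤ t)).card ≤ J := by
      by_contra hcon
      rw [not_le] at hcon
      have : (J + 1) * (t + 1) ≤ J * t :=
        (Nat.mul_le_mul_right _ hcon).trans h1
      nlinarith
    have h3 := card_filter_add_card_filter_not (s := (univ : Finset (Fin (2 * J))))
      (fun j => (Tj j).card ≤ t)
    rw [card_univ, Fintype.card_fin] at h3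
    have h4 : G.card = (univ.filter (fun j : Fin (2 * J) => (Tj j).card ≤ t)).card := rfl
    omega
  have hex : ∀ j : Fin (2 * J), ∃ e : P → Option X,
      (∀ p x, e p = some x → (p, x) ∉ Tj j) ∧ (j ∈ G → 
      ∀ M : Finset Ω, (∀ ω ∈ M, ∀ p, e p ≠ some (c ω p)) → (M.card : ℝ) ≤ δ * Fintype.card Ω) := by
    intro j
    by_cases hj : j ∈ G
    · obtain ⟨e, he1, he2⟩ := h (Tj j) (mem_filter.1 hj).2
      exact ⟨e, he1, fun _ => he2⟩
    · exact ⟨fun _ => none, fun p x hx => by simp at hx, fun hj' => absurd hj' hj⟩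
  choose e he1 he2 using hex
  refine ⟨fun q => e q.1 q.2, ?_, ?_⟩
  · rintro ⟨j, p⟩ x hx hmem
    refine he1 j p x hx ?_
    simp only [Tj, mem_filter, mem_univ, true_and]
    exact hmem
  · intro M hM
    let Mj : Fin (2 * J) → Finset Ω := fun j => univ.filter (fun ω => ∀ p, e j p ≠ some (c ω p))
    have hsub : M ⊆ Fintype.piFinset Mj := by
      intro ω hω
      rw [Fintype.mem_piFinset]
      intro j
      simp only [Mj, mem_filter, mem_univ, true_and]
      intro p
      exact hM ω hω (j, p)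
    have h1 : (M.card : ℝ) ≤ ∏ j, ((Mj j).card : ℝ) := by
      have := card_le_card hsub
      rw [Fintype.card_piFinset] at this
      exact_mod_cast this
    have hΩ0 : (0 : ℝ) ≤ Fintype.card Ω := Nat.cast_nonneg _
    have h2 : ∏ j, ((Mj j).card : ℝ) ≤ ∏ j, ((if j ∈ G then δ else 1) * (Fintype.card Ω : ℝ)) := by
      refine prod_le_prod (fun j _ => Nat.cast_nonneg _) fun j _ => ?_
      by_cases hj : j ∈ G
      · rw [if_pos hj]
        refine he2 j hj (Mj j) ?_
        intro ω hω
        simpa only [Mj, mem_filter, mem_univ, true_and] using hω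
      · rw [if_neg hj, one_mul]
        exact_mod_cast card_le_univ _
    rw [prod_mul_distrib, prod_const, card_univ, Fintype.card_fin, prod_ite_mem, univ_inter,
      prod_const] at h2
    have h3 : δ ^ G.card ≤ δ ^ J := pow_le_pow_of_le_one hδ0 hδ1 hG
    have h4 : (Fintype.card (Fin (2 * J) → Ω) : ℝ) = (Fintype.card Ω : ℝ) ^ (2 * J) := by
      rw [Fintype.card_fun, Fintype.card_fin]
      push_cast
      rfl
    rw [h4]
    calc (M.card : ℝ) ≤ _ := h1
      _ ≤ _ := h2
      _ ≤ _ := mul_le_mul_of_nonneg_right h3 (by positivity)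

end Pool.Agent.TH482
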