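import Pool.Agent.TH482.Sat
import Pool.Agent.TH482.Bad
import Pool.Agent.TH482.Prod

/-!
# The base gadget
-/

set_option autoImplicit false

namespace Pool.Agent.TH482

open Finset

section

variable {F : Type} [Field F] [Fintype F] [DecidableEq F] {b : ℕ} (u : Fin b → F)

/-- number of edges with a real vertex in column `l` -/
theorem real_count (S : Fin b × F → Finset F) (l : Fin b) :
    (univ.filter (fun e : (F × F) × Fin 4 => e.1.1 ∈ S (l, e.1.2 + u l * e.1.1))).card =
      4 * ∑ y, (S (l, y)).card := by
  classical
  rw [mul_sum]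
  have h : ∀ y, 4 * (S (l, y)).card = (S (l, y) ×ˢ (univ : Finset (Fin 4))).card := by
    intro y
    rw [card_product, card_univ, Fintype.card_fin, mul_comm]
  rw [sum_congr rfl fun y _ => h y, ← card_sigma]
  refine Finset.card_bij (fun e _ => ⟨e.1.2 + u l * e.1.1, (e.1.1, e.2)⟩) ?_ ?_ ?_
  · intro e he
    have he' := (mem_filter.1 he).2
    exact mem_sigma.2 ⟨mem_univ _, mem_product.2 ⟨he', mem_univ _⟩⟩
  · rintro ⟨⟨d, x⟩, i⟩ _ ⟨⟨d', x'⟩, i'⟩ _ h
    simp only [Sigma.mk.injEq, heq_eq_eq, Prod.mk.injEq] at h
    obtain ⟨h1, h2, h3⟩ := h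
    subst h2; subst h3
    have : x = x' := add_right_cancel h1
    subst this
    rfl
  · rintro ⟨y, d, i⟩ hq
    have hq' := mem_product.1 (mem_sigma.1 hq).2
    refine ⟨((d, y - u l * d), i), ?_, ?_⟩
    · refine mem_filter.2 ⟨mem_univ _, ?_⟩
      have : y - u l * d + u l * d = y := by ring
      simp only [this]
      exact hq'.1
    · simp only [sub_add_cancel]

theorem base_step (hu : Function.Injective u) (θ κ : ℝ) (hθ : 0 < θ) (hκ : 0 < κ)
    (hsat : SatP (b + 1) θ κ) (hm : 4 ≤ κ * Fintype.card F)
    (T : Finset ((F × Fin 4) × F)) (hT : T.card ≤ Fintype.card F ^ 2 / 8) :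
    ∃ e : F × Fin 4 → Option F,
    (∀ p x, e p = some x → (p, x) ∉ T) ∧
    ∀ M : Finset (Fin b × F), (∀ ω ∈ M, ∀ p, e p ≠ some (ω.2 - u ω.1 * p.1)) →
      (M.card : ℝ) ≤ Fintype.card F + b * (4 * θ * Fintype.card F + 1 / κ + 1) := by
  classical
  set m := Fintype.card F with hmdef
  have hm0 : 0 < m := Fintype.card_pos
  -- deleted lines
  set X : Finset (F × F) := T.image (fun t => (t.1.1, t.2)) with hX
  have hXc : 8 * X.card ≤ m ^ 2 := by
    have h1 : X.card ≤ m ^ 2 / 8 := card_image_le.trans hT
    omega
  set B : Finset (Fin b × F) := univ.filter (fun v => 3 * m ≤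
      4 * (univ.filter (fun d : F => (d, v.2 - u v.1 * d) ∈ X)).card) with hB
  have hBc : B.card ≤ m := bad_points u hu X B hXc (fun v hv => (mem_filter.1 hv).2)
  -- the number q
  obtain ⟨q, hq1, hq2⟩ : ∃ q : ℕ, m ≤ 4 * q ∧ 4 * q ≤ m + 3 := ⟨(m + 3) / 4, by omega, by omega⟩
  have hq0 : 0 < q := by omega
  have hex : ∀ v : Fin b × F, ∃ S : Finset F,
      S ⊆ univ.filter (fun d : F => (d, v.2 - u v.1 * d) ∉ X) ∧
      S.card = if v ∈ B then 0 else q := by
    intro v
    by_cases hv : v ∈ B
    · exact ⟨∅, empty_subset _, by rw [if_pos hv, card_empty]⟩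
    · rw [if_neg hv]
      refine exists_subset_card_eq ?_
      have h1 := card_filter_add_card_filter_not (s := (univ : Finset F))
        (fun d : F => (d, v.2 - u v.1 * d) ∈ X)
      rw [card_univ] at h1
      have h2 : ¬ (3 * m ≤ 4 * (univ.filter (fun d : F => (d, v.2 - u v.1 * d) ∈ X)).card) := by
        intro h
        exact hv (mem_filter.2 ⟨mem_univ _, h⟩)
      omega
  choose S hS1 hS2 using hex
  -- the fractional matching
  let w : (F × F) × Fin 4 → ℝ := fun e => if e.1 ∈ X then 0 else 1 / (4 * q)
  let c : (F × F) × Fin 4 → Option (Fin b) → Option ((F × Fin 4) ⊕ F) := fun e l =>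
    match l with
    | none => some (Sum.inl (e.1.1, e.2))
    | some l => if e.1.1 ∈ S (l, e.1.2 + u l * e.1.1) then some (Sum.inr (e.1.2 + u l * e.1.1))
        else none
  have hc0 : ∀ e, c e none = some (Sum.inl (e.1.1, e.2)) := fun e => rfl
  have hc1 : ∀ e l y, c e (some l) = some (Sum.inr y) ↔
      (e.1.2 + u l * e.1.1 = y ∧ e.1.1 ∈ S (l, y)) := by
    intro e l y
    simp only [c]
    by_cases h : e.1.1 ∈ S (l, e.1.2 + u l * e.1.1)
    · rw [if_pos h]
      constructor
      · intro h'
        have h'' := Sum.inr.inj (Option.some.inj h')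
        rw [← h'']
        exact ⟨rfl, h⟩
      · rintro ⟨h', _⟩
        rw [h']
    · rw [if_neg h]
      constructor
      · intro h'
        exact absurd h' (by simp)
      · rintro ⟨h', h''⟩
        rw [h'] at h
        exact absurd h'' h
  have hc2 : ∀ e l y, c e (some l) ≠ some (Sum.inl y) := by
    intro e l y
    simp only [c]
    split_ifs <;> simp
  have hc3 : ∀ e l, c e (some l) ≠ none ↔ e.1.1 ∈ S (l, e.1.2 + u l * e.1.1) := by
    intro e l
    simp only [c]
    split_ifs with h <;> simp [h]
  have hSX : ∀ e : (F × F) × Fin 4, ∀ l, e.1.1 ∈ S (l, e.1.2 + u l * e.1.1) → e.1 ∉ X := by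
    intro e l h
    have h1 := (mem_filter.1 (hS1 _ h)).2
    have h2 : e.1.2 + u l * e.1.1 - u l * e.1.1 = e.1.2 := by ring
    simp only [h2] at h1
    exact h1
  have hq0' : (0 : ℝ) < 4 * q := by
    have : (0 : ℝ) < q := by exact_mod_cast hq0
    linarith
  have hmq : (m : ℝ) ≤ 4 * q := by exact_mod_cast hq1
  have hw0 : ∀ e, 0 ≤ w e := by
    intro e
    simp only [w]
    split_ifs
    · exact le_rfl
    · positivity
  have hw1 : ∀ e, w e ≤ 1 / (4 * q) := by
    intro e
    simp only [w]
    split_ifs
    · positivity
    · exact le_rfl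
  have hmr : (0 : ℝ) < m := by exact_mod_cast hm0
  have hqκ : 4 * (1 / (4 * (q : ℝ))) ≤ κ := by
    rw [mul_one_div, div_le_iff₀ hq0']
    nlinarith
  have hsumle : ∀ (R : Finset ((F × F) × Fin 4)) (N : ℕ), R.card ≤ N →
      ∑ e ∈ R, w e ≤ N * (1 / (4 * q)) := by
    intro R N hR
    calc ∑ e ∈ R, w e ≤ ∑ _e ∈ R, 1 / (4 * (q : ℝ)) := sum_le_sum fun e _ => hw1 e
      _ = R.card * (1 / (4 * q)) := by rw [sum_const, nsmul_eq_mul]
      _ ≤ _ := mul_le_mul_of_nonneg_right (by exact_mod_cast hR) (by positivity)
  have hβ : Fintype.card (Option (Fin b)) ≤ b + 1 := by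
    rw [Fintype.card_option, Fintype.card_fin]
  obtain ⟨M, hM1, hM2, hM3⟩ := hsat ((F × F) × Fin 4) (Option (Fin b)) ((F × Fin 4) ⊕ F) c w hβ
    hw0
    (fun e => by
      have h1 : (0 : ℝ) < 1 / (4 * q) := by positivity
      have := hw1 e
      linarith)
    (by
      intro l y
      have hone : ((m : ℕ) : ℝ) * (1 / (4 * q)) ≤ 1 := by
        rw [mul_one_div, div_le_one hq0']
        exact hmq
      have hone' : ((4 * q : ℕ) : ℝ) * (1 / (4 * q)) ≤ 1 := by
        rw [mul_one_div, div_le_one hq0']
        push_cast
        exact le_rfl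
      rcases l with _ | l
      · refine (hsumle _ m ?_).trans hone
        refine (Finset.card_le_card_of_injOn (fun e => e.1.2) (fun _ _ => mem_coe.2 (mem_univ _)) ?_).trans_eq card_univ
        intro e he e' he' hee
        have h1 := (mem_filter.1 (mem_coe.1 he)).2
        have h2 := (mem_filter.1 (mem_coe.1 he')).2
        rw [hc0] at h1 h2
        have h3 := Sum.inl.inj (Option.some.inj (h1.trans h2.symm))
        rw [Prod.mk.injEq] at h3
        exact Prod.ext (Prod.ext h3.1 hee) h3.2
      · rcases y with y | y
        · rw [Finset.filter_eq_empty_iff.2 (fun e _ => hc2 e l y), sum_empty]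
          norm_num
        · refine (hsumle _ (4 * q) ?_).trans hone'
          have h1 : (univ.filter (fun e => c e (some l) = some (Sum.inr y))).card ≤
              (S (l, y) ×ˢ (univ : Finset (Fin 4))).card := by
            refine Finset.card_le_card_of_injOn (fun e => (e.1.1, e.2)) ?_ ?_
            · intro e he
              have h1 := (mem_filter.1 (mem_coe.1 he)).2
              rw [hc1] at h1
              exact mem_coe.2 (mem_product.2 ⟨h1.2, mem_univ _⟩)
            · intro e he e' he' hee
              have h1 := (mem_filter.1 (mem_coe.1 he)).2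
              have h2 := (mem_filter.1 (mem_coe.1 he')).2
              rw [hc1] at h1 h2
              have h3 := Prod.mk.inj hee
              have h4 : e.1.2 = e'.1.2 := by
                have := h1.1.trans h2.1.symm
                rw [h3.1] at this
                exact add_right_cancel this
              exact Prod.ext (Prod.ext h3.1 h4) h3.2
          rw [card_product, card_univ, Fintype.card_fin, hS2] at h1
          split_ifs at h1 <;> omega)
    (by
      intro l l' y y' hll
      refine (hsumle _ 4 ?_).trans (by push_cast; exact hqκ)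
      refine (Finset.card_le_card_of_injOn (fun e => e.2) (fun _ _ => mem_coe.2 (mem_univ _)) ?_).trans_eq
        ((card_univ).trans (Fintype.card_fin 4))
      intro e he e' he' hee
      have h1 := (mem_filter.1 (mem_coe.1 he)).2
      have h2 := (mem_filter.1 (mem_coe.1 he')).2
      refine Prod.ext ?_ hee
      rcases l with _ | l <;> rcases l' with _ | l'
      · exact absurd rfl hll
      · rw [hc0] at h1 h2
        rcases y' with y' | y'
        · exact absurd h1.2 (hc2 _ _ _)
        rw [hc1] at h1 h2
        have h3 := Sum.inl.inj (Option.some.inj (h1.1.trans h2.1.symm))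
        rw [Prod.mk.injEq] at h3
        refine Prod.ext h3.1 ?_
        have h4 := h1.2.1.trans h2.2.1.symm
        rw [h3.1] at h4
        exact add_right_cancel h4
      · rw [hc0] at h1 h2
        rcases y with y | y
        · exact absurd h1.1 (hc2 _ _ _)
        rw [hc1] at h1 h2
        have h3 := Sum.inl.inj (Option.some.inj (h1.2.trans h2.2.symm))
        rw [Prod.mk.injEq] at h3
        refine Prod.ext h3.1 ?_
        have h4 := h1.1.1.trans h2.1.1.symm
        rw [h3.1] at h4
        exact add_right_cancel h4
      · rcases y with y | y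
        · exact absurd h1.1 (hc2 _ _ _)
        rcases y' with y' | y'
        · exact absurd h1.2 (hc2 _ _ _)
        rw [hc1, hc1] at h1 h2
        have hne : ((l, y) : Fin b × F) ≠ (l', y') := by
          intro h
          exact hll (by rw [(Prod.mk.inj h).1])
        exact on_unique u hu hne (L := e.1) (L' := e'.1) h1.1.1.symm h1.2.1.symm
          h2.1.1.symm h2.2.1.symm)
  have hwpos : ∀ e ∈ M, e.1 ∉ X := by
    intro e he hX'
    have := hM1 e he
    simp only [w, if_pos hX'] at this
    exact lt_irrefl _ this
  -- the choice of labels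
  let f : F × Fin 4 → Option F := fun p => if h : ∃ x, ((p.1, x), p.2) ∈ M then some h.choose else none
  have hf1 : ∀ p x, f p = some x → ((p.1, x), p.2) ∈ M := by
    intro p x hx
    by_cases h : ∃ x, ((p.1, x), p.2) ∈ M
    · simp only [f, dif_pos h] at hx
      rw [← Option.some.inj hx]
      exact h.choose_spec
    · simp only [f, dif_neg h] at hx
      exact absurd hx (by simp)
  have hf2 : ∀ d x i, ((d, x), i) ∈ M → f (d, i) = some x := by
    intro d x i h
    have h' : ∃ x, (((d, i) : F × Fin 4).1, x, ((d, i) : F × Fin 4).2) = (((d, i) : F × Fin 4).1, x, ((d, i) : F × Fin 4).2) := ⟨x, rfl⟩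
    have hex : ∃ x, ((((d, i) : F × Fin 4).1, x), ((d, i) : F × Fin 4).2) ∈ M := ⟨x, h⟩
    have hfe : f (d, i) = some hex.choose := dif_pos hex
    have h2 := hex.choose_spec
    rw [hfe]
    congr 1
    by_contra hne
    have hne' : ((((d, i) : F × Fin 4).1, hex.choose), ((d, i) : F × Fin 4).2) ≠ ((d, x), i) := by
      intro h
      exact hne (Prod.mk.inj (Prod.mk.inj h).1).2
    exact hM2 _ h2 _ h hne' none (Sum.inl (d, i)) rfl rfl
  refine ⟨f, ?_, ?_⟩
  · intro p x hx hT'
    refine hwpos _ (hf1 p x hx) ?_
    rw [hX, mem_image]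
    exact ⟨(p, x), hT', rfl⟩
  · intro M' hM'
    -- columnwise
    have hcol : ∀ l : Fin b, ((M'.filter (fun v => v.1 = l)).card : ℝ) ≤
        ((B.filter (fun v => v.1 = l)).card : ℝ) + (4 * θ * m + 1 / κ + 1) := by
      intro l
      set cov := M.filter (fun e => c e (some l) ≠ none) with hcov
      have h1 : (M'.filter (fun v => v.1 = l)).card + cov.card ≤ m := by
        have himg : (M'.filter (fun v => v.1 = l)).card = ((M'.filter (fun v => v.1 = l)).image (fun v => v.2)).card := by
          rw [card_image_of_injOn]
          intro v hv v' hv' h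
          have e1 := (mem_filter.1 (mem_coe.1 hv)).2
          have e2 := (mem_filter.1 (mem_coe.1 hv')).2
          exact Prod.ext (e1.trans e2.symm) h
        have hcovreal : ∀ e ∈ cov, c e (some l) = some (Sum.inr (e.1.2 + u l * e.1.1)) := by
          intro e he
          have h2 := (mem_filter.1 he).2
          rw [hc3] at h2
          rw [hc1]
          exact ⟨rfl, h2⟩
        have himg2 : cov.card = (cov.image (fun e => e.1.2 + u l * e.1.1)).card := by
          rw [card_image_of_injOn]
          intro e he e' he' h
          by_contra hne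
          have e1 := hcovreal e he
          have e2 := hcovreal e' he'
          have h' : e.1.2 + u l * e.1.1 = e'.1.2 + u l * e'.1.1 := h
          rw [← h'] at e2
          exact hM2 e (mem_filter.1 (mem_coe.1 he)).1 e' (mem_filter.1 (mem_coe.1 he')).1 hne
            (some l) (Sum.inr (e.1.2 + u l * e.1.1)) e1 e2
        rw [himg, himg2, ← card_union_of_disjoint]
        · exact card_le_univ _
        · rw [Finset.disjoint_left]
          intro y hy hy'
          obtain ⟨v, hv, rfl⟩ := mem_image.1 hy
          obtain ⟨e, he, hey⟩ := mem_image.1 hy'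
          have hv' := mem_filter.1 hv
          refine hM' v hv'.1 (e.1.1, e.2) ?_
          rw [hf2 e.1.1 e.1.2 e.2 (mem_filter.1 he).1]
          congr 1
          rw [← hey, hv'.2]
          ring
      have h2 : (∑ e ∈ univ.filter (fun e => c e (some l) ≠ none), w e) =
          (m : ℝ) - ((B.filter (fun v => v.1 = l)).card : ℝ) := by
        have e1 : ∀ e ∈ univ.filter (fun e => c e (some l) ≠ none), w e = 1 / (4 * q) := by
          intro e he
          have h3 := (mem_filter.1 he).2
          rw [hc3] at h3
          simp only [w, if_neg (hSX e l h3)]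
        rw [sum_congr rfl e1, sum_const, nsmul_eq_mul]
        have e2 : (univ.filter (fun e => c e (some l) ≠ none)) =
            univ.filter (fun e : (F × F) × Fin 4 => e.1.1 ∈ S (l, e.1.2 + u l * e.1.1)) := by
          ext e
          simp only [mem_filter, mem_univ, true_and]
          exact hc3 e l
        rw [e2, real_count u S l]
        have e3 : ∑ y, (S (l, y)).card = q * (univ.filter (fun y : F => (l, y) ∉ B)).card := by
          rw [card_filter, mul_sum]
          refine sum_congr rfl fun y _ => ?_
          rw [hS2]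
          by_cases h : (l, y) ∈ B <;> simp [h]
        have e4 : (B.filter (fun v => v.1 = l)).card = (univ.filter (fun y : F => (l, y) ∈ B)).card := by
          refine Finset.card_bij (fun v _ => v.2) ?_ ?_ ?_
          · rintro ⟨l', y⟩ hv
            have hv' := mem_filter.1 hv
            have : l' = l := hv'.2
            subst this
            exact mem_filter.2 ⟨mem_univ _, hv'.1⟩
          · intro v hv v' hv' h
            exact Prod.ext (((mem_filter.1 hv).2).trans ((mem_filter.1 hv').2).symm) h
          · intro y hy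
            exact ⟨(l, y), mem_filter.2 ⟨(mem_filter.1 hy).2, rfl⟩, rfl⟩
        have e5 := card_filter_add_card_filter_not (s := (univ : Finset F)) (fun y : F => (l, y) ∈ B)
        rw [card_univ] at e5
        rw [e3, e4]
        have e6 : ((univ.filter (fun y : F => (l, y) ∈ B)).card : ℝ) +
            ((univ.filter (fun y : F => (l, y) ∉ B)).card : ℝ) = m := by exact_mod_cast e5
        push_cast
        rw [mul_one_div, div_eq_iff hq0'.ne']
        rw [← e6]
        ring
      have h3 : ∑ e, w e ≤ 4 * m := by
        have h4 := hsumle univ (m * m * 4) (by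
          rw [card_univ, Fintype.card_prod, Fintype.card_prod, Fintype.card_fin])
        refine h4.trans ?_
        rw [mul_one_div, div_le_iff₀ hq0']
        push_cast
        nlinarith
      have h4 := hM3 (some l)
      rw [h2] at h4
      have h5 : ((M'.filter (fun v => v.1 = l)).card : ℝ) + (cov.card : ℝ) ≤ m := by
        exact_mod_cast h1
      have h6 : θ * ∑ e, w e ≤ θ * (4 * m) := mul_le_mul_of_nonneg_left h3 hθ.le
      have h7 : ((univ.filter (fun e => c e (some l) ≠ none)) : Finset _) = univ.filter (fun e => c e (some l) ≠ none) := rfl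
      linarith
    have hsumM : (M'.card : ℝ) = ∑ l, ((M'.filter (fun v => v.1 = l)).card : ℝ) := by
      have := card_eq_sum_card_fiberwise (f := fun v : Fin b × F => v.1) (s := M') (t := univ)
        (fun _ _ => mem_coe.2 (mem_univ _))
      rw [this]
      push_cast
      rfl
    have hsumB : (B.card : ℝ) = ∑ l, ((B.filter (fun v => v.1 = l)).card : ℝ) := by
      have := card_eq_sum_card_fiberwise (f := fun v : Fin b × F => v.1) (s := B) (t := univ)
        (fun _ _ => mem_coe.2 (mem_univ _))
      rw [this]
      push_cast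
      rfl
    calc (M'.card : ℝ) = _ := hsumM
      _ ≤ ∑ l, (((B.filter (fun v => v.1 = l)).card : ℝ) + (4 * θ * m + 1 / κ + 1)) :=
          sum_le_sum fun l _ => hcol l
      _ = B.card + b * (4 * θ * m + 1 / κ + 1) := by
          rw [sum_add_distrib, ← hsumB, sum_const, card_univ, Fintype.card_fin, nsmul_eq_mul]
      _ ≤ _ := by
          have : (B.card : ℝ) ≤ m := by exact_mod_cast hBc
          linarith

end

end Pool.Agent.TH482
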