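import Mathlib

/-!
# Cover number of r-partite hypergraphs with pairwise intersecting edge covers: definitions

The parts are indexed by `Fin r`; the vertices of each part are labelled by (some of) the elements
of `V`, so that a vertex is a pair `(i, v)`, and a transversal (in particular an edge) is a function
`Fin r → V`.
-/

set_option autoImplicit false

namespace Pool.Agent.TH482

open Finset

/-- the vertex set `T` meets every edge of `H` -/
def IsCover {r : ℕ} {V : Type} (H : Finset (Fin r → V)) (T : Finset (Fin r × V)) : Prop :=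
  ∀ e ∈ H, ∃ i, (i, e i) ∈ T

/-- the cover number of `H` : the least size of a set of vertices meeting every edge -/
noncomputable def tau {r : ℕ} {V : Type} (H : Finset (Fin r → V)) : ℕ :=
  sInf {n | ∃ T : Finset (Fin r × V), IsCover H T ∧ T.card = n}

/-- `H` is `k`-intersectingly covered -/
def IntCov {r : ℕ} {V : Type} (k : ℕ) (H : Finset (Fin r → V)) : Prop :=
  ∃ C : Finset (Fin r → V) → (Fin r → V),
    (∀ S, S ⊆ H → S.card ≤ k → C S ∈ H ∧ ∀ e ∈ S, ∃ i, C S i = e i) ∧
    (∀ S S', S ⊆ H → S.card ≤ k → S' ⊆ H → S'.card ≤ k → ∃ i, C S i = C S' i)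

/-- a gadget : whenever at most `t` pairs (part, label) are deleted, there is a partial choice of
labels avoiding the deleted ones and missing only a `δ` fraction of the points -/
def Gad (P X Ω : Type) [Fintype Ω] (c : Ω → P → X) (t : ℕ) (δ : ℝ) : Prop :=
  ∀ T : Finset (P × X), T.card ≤ t → ∃ e : P → Option X,
    (∀ p x, e p = some x → (p, x) ∉ T) ∧
    ∀ M : Finset Ω, (∀ ω ∈ M, ∀ p, e p ≠ some (c ω p)) → (M.card : ℝ) ≤ δ * Fintype.card Ω

theorem lt_tau {r : ℕ} {V : Type} [Fintype V] (H : Finset (Fin r → V)) (t : ℕ) (hr : 0 < r)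
    (h : ∀ T : Finset (Fin r × V), T.card ≤ t → ¬ IsCover H T) : t < tau H := by
  classical
  unfold tau
  have hne : {n | ∃ T : Finset (Fin r × V), IsCover H T ∧ T.card = n}.Nonempty :=
    ⟨_, univ, fun e _ => ⟨⟨0, hr⟩, mem_univ _⟩, rfl⟩
  obtain ⟨T, hT, hc⟩ := Nat.sInf_mem hne
  by_contra hcon
  rw [not_lt] at hcon
  exact h T (hc.trans_le hcon) hT

theorem exists_H {P X Ω : Type} [Fintype P] [Fintype X] [Fintype Ω] [Nonempty Ω]
    (c : Ω → P → X) (t k r : ℕ) (δ : ℝ) (h : Gad P X Ω c t δ) (hδ : 0 ≤ δ)
    (hr : Fintype.card P + 1 ≤ r) (hk : k * δ < 1) :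
    ∃ (n : ℕ) (H : Finset (Fin r → Fin n)), IntCov k H ∧ t < tau H := by
  classical
  -- the map from the parts to `Option P`
  have hcard : Fintype.card (Option P) ≤ Fintype.card (Fin r) := by
    rw [Fintype.card_option, Fintype.card_fin]
    exact hr
  obtain ⟨emb⟩ := Function.Embedding.nonempty_of_card_le hcard
  set g : Fin r → Option P := Function.invFun emb with hg
  have hgs : ∀ o, ∃ i, g i = o := fun o => ⟨emb o, Function.leftInverse_invFun emb.injective o⟩
  have hr0 : 0 < r := by omega
  -- labels
  let V := Option X ⊕ Fin (t + 1)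
  let φ : V ≃ Fin (Fintype.card V) := Fintype.equivFin V
  let C : Ω → Fin r → Fin (Fintype.card V) := fun ω i => φ (Sum.inl ((g i).map (c ω)))
  let miss : (Fin r → Fin (Fintype.card V)) → Finset Ω := fun e => univ.filter (fun ω => ∀ i, C ω i ≠ e i)
  let H : Finset (Fin r → Fin (Fintype.card V)) :=
    univ.filter (fun e => ((miss e).card : ℝ) ≤ δ * Fintype.card Ω)
  have hΩ : (0 : ℝ) < Fintype.card Ω := by exact_mod_cast Fintype.card_pos
  have hstar : ∀ ω ω', ∃ i, C ω i = C ω' i := by
    intro ω ω'
    obtain ⟨i, hi⟩ := hgs none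
    refine ⟨i, ?_⟩
    simp only [C, hi, Option.map_none]
  have hCH : ∀ ω, C ω ∈ H := by
    intro ω
    simp only [H, mem_filter, mem_univ, true_and]
    have : miss (C ω) = ∅ := by
      rw [Finset.eq_empty_iff_forall_notMem]
      intro ω' hω'
      simp only [miss, mem_filter, mem_univ, true_and] at hω'
      obtain ⟨i, hi⟩ := hstar ω' ω
      exact hω' i hi
    rw [this, card_empty]
    simp only [Nat.cast_zero]
    positivity
  -- choice of covers
  have hcov : ∀ S : Finset (Fin r → Fin (Fintype.card V)), S ⊆ H → S.card ≤ k →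
      ∃ ω, ∀ e ∈ S, ∃ i, C ω i = e i := by
    intro S hS hSk
    by_contra hcon
    push Not at hcon
    have hsub : (univ : Finset Ω) ⊆ S.biUnion miss := by
      intro ω _
      obtain ⟨e, he, hi⟩ := hcon ω
      rw [mem_biUnion]
      exact ⟨e, he, by simp only [miss, mem_filter, mem_univ, true_and]; exact hi⟩
    have h1 : (Fintype.card Ω : ℝ) ≤ ∑ e ∈ S, ((miss e).card : ℝ) := by
      have := (card_le_card hsub).trans card_biUnion_le
      rw [card_univ] at this
      exact_mod_cast this
    have h2 : ∑ e ∈ S, ((miss e).card : ℝ) ≤ ∑ e ∈ S, δ * Fintype.card Ω := by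
      refine sum_le_sum fun e he => ?_
      have := hS he
      simp only [H, mem_filter, mem_univ, true_and] at this
      exact this
    rw [sum_const, nsmul_eq_mul] at h2
    have h3 : (S.card : ℝ) * (δ * Fintype.card Ω) ≤ k * (δ * Fintype.card Ω) := by
      have : (S.card : ℝ) ≤ k := by exact_mod_cast hSk
      exact mul_le_mul_of_nonneg_right this (by positivity)
    have h4 : (k : ℝ) * (δ * Fintype.card Ω) < Fintype.card Ω := by
      rw [← mul_assoc]
      calc (k : ℝ) * δ * Fintype.card Ω < 1 * Fintype.card Ω := mul_lt_mul_of_pos_right hk hΩ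
        _ = _ := one_mul _
    linarith
  refine ⟨Fintype.card V, H, ?_, ?_⟩
  · -- intersectingly covered
    let ω₀ : Ω := Classical.arbitrary Ω
    refine ⟨fun S => if hS : S ⊆ H ∧ S.card ≤ k then C (hcov S hS.1 hS.2).choose else C ω₀, ?_, ?_⟩
    · intro S hS hk'
      have hh : S ⊆ H ∧ S.card ≤ k := ⟨hS, hk'⟩
      simp only [dif_pos hh]
      exact ⟨hCH _, (hcov S hS hk').choose_spec⟩
    · intro S S' hS hk' hS' hk''
      have hh : S ⊆ H ∧ S.card ≤ k := ⟨hS, hk'⟩
      have hh' : S' ⊆ H ∧ S'.card ≤ k := ⟨hS', hk''⟩
      simp only [dif_pos hh, dif_pos hh']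
      exact hstar _ _
  · apply lt_tau _ _ hr0
    intro T hT hcovT
    -- the deleted labels of the gadget
    let T' : Finset (P × X) := univ.filter (fun q => ∃ i, g i = some q.1 ∧ (i, φ (Sum.inl (some q.2))) ∈ T)
    have hT' : T'.card ≤ t := by
      refine le_trans ?_ hT
      have hch : ∀ q : P × X, q ∈ T' → ∃ i, g i = some q.1 ∧ (i, φ (Sum.inl (some q.2))) ∈ T := by
        intro q hq
        simpa only [T', mem_filter, mem_univ, true_and] using hq
      let s : P × X → Fin r × Fin (Fintype.card V) := fun q =>
        if hq : q ∈ T' then ((hch q hq).choose, φ (Sum.inl (some q.2))) else (⟨0, hr0⟩, φ (Sum.inl none))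
      refine Finset.card_le_card_of_injOn s ?_ ?_
      · intro q hq
        have hq' : q ∈ T' := hq
        have hs : s q = ((hch q hq').choose, φ (Sum.inl (some q.2))) := dif_pos hq'
        rw [hs]
        exact (hch q hq').choose_spec.2
      · intro q hq q' hq' hqq
        have h1 : q ∈ T' := hq
        have h2 : q' ∈ T' := hq'
        have hs : s q = ((hch q h1).choose, φ (Sum.inl (some q.2))) := dif_pos h1
        have hs' : s q' = ((hch q' h2).choose, φ (Sum.inl (some q'.2))) := dif_pos h2
        rw [hs, hs', Prod.mk.injEq] at hqq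
        have hx := φ.injective hqq.2
        have hx := Option.some.inj (Sum.inl.inj hx)
        have e1 := (hch q h1).choose_spec.1
        have e2 := (hch q' h2).choose_spec.1
        rw [← hqq.1] at e2
        rw [e1] at e2
        simp only [Option.some.injEq] at e2
        exact Prod.ext e2 hx
    obtain ⟨e, he1, he2⟩ := h T' hT'
    -- the dummies
    have hdum : ∀ i : Fin r, ∃ a : Fin (t + 1), (i, φ (Sum.inr a)) ∉ T := by
      intro i
      by_contra hcon
      push Not at hcon
      have hle : Fintype.card (Fin (t + 1)) ≤ T.card := by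
        rw [← Finset.card_univ]
        refine Finset.card_le_card_of_injOn (fun a => (i, φ (Sum.inr a))) ?_ ?_
        · intro a _
          exact hcon a
        · intro a _ b _ hab
          simp only [Prod.mk.injEq, true_and] at hab
          exact Sum.inr.inj (φ.injective hab)
      rw [Fintype.card_fin] at hle
      omega
    choose dum hdum using hdum
    let lab : Fin r → Fin (Fintype.card V) := fun i =>
      match (g i).bind e with
      | some x => φ (Sum.inl (some x))
      | none => φ (Sum.inr (dum i))
    have hlabH : lab ∈ H := by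
      simp only [H, mem_filter, mem_univ, true_and]
      apply he2
      intro ω hω p hp
      simp only [miss, mem_filter, mem_univ, true_and] at hω
      obtain ⟨i, hi⟩ := hgs (some p)
      apply hω i
      simp only [C, lab, hi, Option.map_some, Option.bind_some, hp]
    obtain ⟨i, hi⟩ := hcovT lab hlabH
    have hcase : lab i = match (g i).bind e with
      | some x => φ (Sum.inl (some x))
      | none => φ (Sum.inr (dum i)) := rfl
    rcases hge : (g i).bind e with _ | x
    · rw [hge] at hcase
      simp only at hcase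
      rw [hcase] at hi
      exact hdum i hi
    · rw [hge] at hcase
      simp only at hcase
      rw [hcase] at hi
      rw [Option.bind_eq_some_iff] at hge
      obtain ⟨p, hp, hx⟩ := hge
      refine he1 p x hx ?_
      simp only [T', mem_filter, mem_univ, true_and]
      exact ⟨i, hp, hi⟩

end Pool.Agent.TH482
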