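import Pool.Agent.TH482.QNib2
import Pool.Agent.TH482.Base

/-!
# The lower bound
-/

set_option autoImplicit false

namespace Pool.Agent.TH482

open Finset

theorem base_gad (b : ℕ) (hb : 1 ≤ b) (F : Type) [Field F] [Fintype F] [DecidableEq F]
    (u : Fin b → F) (hu : Function.Injective u)
    (hm : 4 * Real.exp (120000 * (b : ℝ) ^ 4) ≤ Fintype.card F) :
    Gad (F × Fin 4) F (Fin b × F) (fun v p => v.2 - u v.1 * p.1) (Fintype.card F ^ 2 / 8)
      (2 / b) := by
  intro T hT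
  set E : ℝ := Real.exp (60000 * (b : ℝ) ^ 4) with hE
  have hE2 : Real.exp (120000 * (b : ℝ) ^ 4) = E * E := by
    rw [hE, ← Real.exp_add]
    ring_nf
  have hb1 : (1 : ℝ) ≤ b := by exact_mod_cast hb
  have hb4 : (b : ℝ) ≤ 60000 * (b : ℝ) ^ 4 := by
    have : (b : ℝ) ^ 1 ≤ (b : ℝ) ^ 4 := pow_le_pow_right₀ hb1 (by norm_num)
    rw [pow_one] at this
    have h0 : (0 : ℝ) ≤ (b : ℝ) ^ 4 := by positivity
    linarith
  have hEb : (b : ℝ) + 1 ≤ E := by
    have := Real.add_one_le_exp (60000 * (b : ℝ) ^ 4)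
    linarith
  have hκE : Real.exp (-(60000 * (b : ℝ) ^ 4)) = 1 / E := by
    rw [Real.exp_neg, one_div]
  have hE0 : 0 < E := Real.exp_pos _
  rw [hE2] at hm
  set m : ℝ := (Fintype.card F : ℝ) with hmd
  obtain ⟨e, he1, he2⟩ := base_step u hu (1 / (16 * b)) (Real.exp (-(60000 * (b : ℝ) ^ 4)))
    (by positivity) (Real.exp_pos _) (sat_explicit b hb)
    (by
      rw [hκE, one_div_mul_eq_div, le_div_iff₀ hE0]
      nlinarith) T hT
  refine ⟨e, he1, fun M hM => (he2 M hM).trans ?_⟩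
  rw [hκE, one_div_one_div]
  have h1 : (Fintype.card (Fin b × F) : ℝ) = b * m := by
    rw [Fintype.card_prod, Fintype.card_fin]
    push_cast
    rfl
  have h2 : (b : ℝ) * (4 * (1 / (16 * b)) * m + E + 1) = m / 4 + b * (E + 1) := by
    field_simp
    ring
  have h3 : 2 / (b : ℝ) * (b * m) = 2 * m := by
    field_simp
  rw [h1, h2, h3]
  have h4 : (b : ℝ) * (E + 1) ≤ 2 * (E * E) := by nlinarith
  linarith

/-- one value of the parameters -/
theorem lower_step (r k b J m : ℕ) (hb : 1 ≤ b) [Fact m.Prime]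
    (hm : 4 * Real.exp (120000 * (b : ℝ) ^ 4) ≤ m) (hr : 8 * J * m + 1 ≤ r)
    (hk : (k : ℝ) * (2 / b) ^ J < 1) (hb2 : 2 ≤ b) :
    ∃ (n : ℕ) (H : Finset (Fin r → Fin n)), IntCov k H ∧ J * (m ^ 2 / 8) < tau H := by
  classical
  have hm0 : 0 < m := (Fact.out : m.Prime).pos
  have : NeZero m := ⟨hm0.ne'⟩
  have hb1 : (1 : ℝ) ≤ b := by exact_mod_cast hb
  have hbm : b ≤ m := by
    have h1 : (b : ℝ) ≤ m := by
      have h2 := Real.add_one_le_exp (120000 * (b : ℝ) ^ 4)
      have h3 : (b : ℝ) ^ 1 ≤ (b : ℝ) ^ 4 := pow_le_pow_right₀ hb1 (by norm_num)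
      rw [pow_one] at h3
      have h0 : (0 : ℝ) ≤ (b : ℝ) ^ 4 := by positivity
      linarith
    exact_mod_cast h1
  have hu : Function.Injective (fun l : Fin b => ((l : ℕ) : ZMod m)) := by
    intro l l' h
    have h' : ((l : ℕ) : ZMod m) = ((l' : ℕ) : ZMod m) := h
    rw [ZMod.natCast_eq_natCast_iff'] at h'
    rw [Nat.mod_eq_of_lt (lt_of_lt_of_le l.2 hbm), Nat.mod_eq_of_lt (lt_of_lt_of_le l'.2 hbm)] at h'
    exact Fin.ext h'
  have hg := base_gad b hb (ZMod m) (fun l : Fin b => ((l : ℕ) : ZMod m)) hu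
    (by rw [ZMod.card]; exact hm)
  rw [ZMod.card] at hg
  have hδ1 : (2 : ℝ) / b ≤ 1 := by
    rw [div_le_one (by linarith)]
    exact_mod_cast hb2
  have hg2 := gad_prod _ _ J _ (by positivity) hδ1 hg
  have : Nonempty (Fin (2 * J) → Fin b × ZMod m) := ⟨fun _ => (⟨0, hb⟩, 0)⟩
  refine exists_H _ _ k r _ hg2 (by positivity) ?_ hk
  rw [Fintype.card_prod, Fintype.card_prod, ZMod.card, Fintype.card_fin, Fintype.card_fin]
  nlinarith

theorem lower : ∃ C : ℝ, 0 < C ∧ ∀ r k : ℕ, r ≤ k → C * Real.log k ≤ r → 0 < Real.log k →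
    ∃ (n : ℕ) (H : Finset (Fin r → Fin n)), IntCov k H ∧
      1 / 40960 * ((r : ℝ) ^ 2 / Real.log k) * Real.log (Real.log (r / Real.log k)) ≤ tau H := by
  -- the constants
  obtain ⟨lam0, hlam0, hlam0'⟩ : ∃ l0 : ℝ, 1 ≤ l0 ∧ ∀ l : ℝ, l0 ≤ l →
      6 ≤ l ^ (1 / 5 : ℝ) ∧ 3 * l ^ (1 / 5 : ℝ) ≤ (l / 480000) ^ (1 / 4 : ℝ) := by
    set a : ℝ := max 6 (3 * (480000 : ℝ) ^ (1 / 4 : ℝ)) with ha
    have ha6 : 6 ≤ a := le_max_left _ _
    have ha3 : 3 * (480000 : ℝ) ^ (1 / 4 : ℝ) ≤ a := le_max_right _ _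
    have ha0 : 0 < a := by linarith
    refine ⟨a ^ (20 : ℝ), Real.one_le_rpow (by linarith) (by norm_num), fun l hl => ?_⟩
    have hl0 : 0 < l := lt_of_lt_of_le (Real.rpow_pos_of_pos ha0 _) hl
    have h1 : a ≤ l ^ (1 / 20 : ℝ) := by
      have := Real.rpow_le_rpow (Real.rpow_pos_of_pos ha0 20).le hl (show (0 : ℝ) ≤ 1 / 20 by norm_num)
      rw [← Real.rpow_mul ha0.le] at this
      norm_num at this
      norm_num
      exact this
    have h20 : 1 ≤ l ^ (1 / 20 : ℝ) := by linarith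
    have hl1 : 1 ≤ l := by
      by_contra hcon
      push Not at hcon
      have := Real.rpow_lt_one hl0.le hcon (show (0 : ℝ) < 1 / 20 by norm_num)
      linarith
    constructor
    · calc (6 : ℝ) ≤ a := ha6
        _ ≤ l ^ (1 / 20 : ℝ) := h1
        _ ≤ l ^ (1 / 5 : ℝ) := Real.rpow_le_rpow_of_exponent_le hl1 (by norm_num)
    · rw [Real.div_rpow hl0.le (by norm_num), le_div_iff₀ (by positivity)]
      calc 3 * l ^ (1 / 5 : ℝ) * (480000 : ℝ) ^ (1 / 4 : ℝ)
          = l ^ (1 / 5 : ℝ) * (3 * (480000 : ℝ) ^ (1 / 4 : ℝ)) := by ring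
        _ ≤ l ^ (1 / 5 : ℝ) * l ^ (1 / 20 : ℝ) :=
            mul_le_mul_of_nonneg_left (ha3.trans h1) (Real.rpow_nonneg hl0.le _)
        _ = l ^ (1 / 4 : ℝ) := by rw [← Real.rpow_add hl0]; norm_num
  set C : ℝ := Real.exp lam0 + 128 ^ 2 with hC
  have hC0 : 0 < C := by positivity
  refine ⟨C, hC0, ?_⟩
  intro r k hrk hCr hlk
  set x : ℝ := r / Real.log k with hx
  have hxC : C ≤ x := by rw [hx, le_div_iff₀ hlk]; exact hCr
  have hx0 : 0 < x := by linarith
  have hx128 : (128 : ℝ) ^ 2 ≤ x := by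
    have := Real.exp_pos lam0
    linarith
  set lam : ℝ := Real.log x with hlam
  have hlam1 : lam0 ≤ lam := by
    rw [hlam, Real.le_log_iff_exp_le hx0]
    have : (0 : ℝ) ≤ 128 ^ 2 := by norm_num
    linarith
  have hlampos : 0 < lam := by linarith
  obtain ⟨hl6, hl3⟩ := hlam0' lam hlam1
  have hxr : x * Real.log k = r := by rw [hx]; field_simp
  have hr0 : (0 : ℝ) < r := by rw [← hxr]; positivity
  have hlogrk : Real.log r ≤ Real.log k := Real.log_le_log hr0 (by exact_mod_cast hrk)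
  -- `b`
  set b : ℕ := ⌊(lam / 480000) ^ (1 / 4 : ℝ)⌋₊ with hbdef
  have hbpos : (0 : ℝ) ≤ (lam / 480000) ^ (1 / 4 : ℝ) := by positivity
  have hble : (b : ℝ) ≤ (lam / 480000) ^ (1 / 4 : ℝ) := Nat.floor_le hbpos
  have hbgt : (lam / 480000) ^ (1 / 4 : ℝ) < b + 1 := Nat.lt_floor_add_one _
  have hb2lam : 2 * lam ^ (1 / 5 : ℝ) ≤ b := by linarith
  have hb12 : (12 : ℝ) ≤ b := by linarith
  have hb12' : 12 ≤ b := by exact_mod_cast hb12
  have hb4 : (b : ℝ) ^ 4 ≤ lam / 480000 := by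
    calc (b : ℝ) ^ 4 ≤ ((lam / 480000) ^ (1 / 4 : ℝ)) ^ 4 := pow_le_pow_left₀ (by linarith) hble 4
      _ = lam / 480000 := by
        rw [← Real.rpow_natCast, ← Real.rpow_mul (by positivity)]
        norm_num
  -- `L`
  set L : ℝ := Real.log (b / 2) with hL
  have hL1 : 1 / 5 * Real.log lam ≤ L := by
    rw [hL, ← Real.log_rpow hlampos]
    refine Real.log_le_log (Real.rpow_pos_of_pos hlampos _) ?_
    linarith
  have hLone : 1 ≤ L := by
    rw [hL, Real.le_log_iff_exp_le (by linarith)]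
    have := Real.exp_one_lt_d9
    linarith
  have hlogx1 : Real.log k ≥ 1 := by
    have h1 : Real.exp 1 ≤ r := by
      have h2 : Real.exp 1 < 3 := by
        have := Real.exp_one_lt_d9
        linarith
      by_contra hcon
      push Not at hcon
      have hr3 : (r : ℝ) < 3 := by linarith
      have hk1 : 1 < (k : ℝ) := by
        by_contra hk'
        push Not at hk'
        have hk0 : (0 : ℝ) < k := lt_of_lt_of_le hr0 (by exact_mod_cast hrk)
        have := Real.log_nonpos hk0.le hk'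
        linarith
      have hk2 : 2 ≤ k := by
        have : 1 < k := by exact_mod_cast hk1
        omega
      have hl2 : Real.log 2 ≤ Real.log k := Real.log_le_log (by norm_num) (by exact_mod_cast hk2)
      have hl2' := Real.log_two_gt_d9
      nlinarith
    have h3 : 1 ≤ Real.log r := by
      rw [Real.le_log_iff_exp_le hr0]
      exact h1
    linarith
  have hxler : x ≤ r := by
    rw [← hxr]
    nlinarith
  have hLk : L ≤ Real.log k := by
    have h1 : L ≤ Real.log r := by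
      rw [hL]
      refine Real.log_le_log (by linarith) ?_
      have h2 : (b : ℝ) ≤ lam := by
        have h3 : (b : ℝ) ^ 1 ≤ (b : ℝ) ^ 4 := pow_le_pow_right₀ (by linarith) (by norm_num)
        rw [pow_one] at h3
        have : lam / 480000 ≤ lam := div_le_self hlampos.le (by norm_num)
        linarith
      have h4 : lam ≤ x - 1 := Real.log_le_sub_one_of_pos hx0
      linarith
    linarith
  -- `J`
  set J : ℕ := ⌊Real.log k / L⌋₊ + 1 with hJdef
  have hJ1 : Real.log k < J * L := by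
    have h1 := Nat.lt_floor_add_one (Real.log k / L)
    rw [div_lt_iff₀ (by linarith)] at h1
    have h2 : (J : ℝ) = (⌊Real.log k / L⌋₊ : ℝ) + 1 := by rw [hJdef]; push_cast; rfl
    rw [h2]
    exact h1
  have hJ2 : (J : ℝ) * L ≤ 2 * Real.log k := by
    have h1 : ((⌊Real.log k / L⌋₊ : ℕ) : ℝ) ≤ Real.log k / L := Nat.floor_le (by positivity)
    rw [le_div_iff₀ (by linarith)] at h1
    have h2 : (J : ℝ) = (⌊Real.log k / L⌋₊ : ℝ) + 1 := by rw [hJdef]; push_cast; rfl
    rw [h2, add_mul, one_mul]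
    linarith
  have hJpos : 0 < J := Nat.succ_pos _
  have hJr : (1 : ℝ) ≤ J := by exact_mod_cast hJpos
  -- `m`
  have hr16 : 16 * J ≤ r - 1 := by
    have h1 : (16 * J + 1 : ℝ) ≤ r := by
      rw [← hxr]
      have h2 : (J : ℝ) ≤ 2 * Real.log k := by nlinarith
      nlinarith
    have h2 : 16 * J + 1 ≤ r := by exact_mod_cast h1
    omega
  set y : ℕ := (r - 1) / (16 * J) with hy
  have hy0 : y ≠ 0 := by
    have : 0 < y := Nat.div_pos hr16 (by omega)
    omega
  obtain ⟨m, hmp, hym, hmy⟩ := Nat.exists_prime_lt_and_le_two_mul y hy0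
  have : Fact m.Prime := ⟨hmp⟩
  have hyr : y * (16 * J) ≤ r - 1 := Nat.div_mul_le_self _ _
  have hrm : 8 * J * m + 1 ≤ r := by
    have h1 : 8 * J * m ≤ 8 * J * (2 * y) := Nat.mul_le_mul_left _ hmy
    have h2 : 8 * J * (2 * y) = y * (16 * J) := by ring
    omega
  have hrm2 : r ≤ 16 * J * m := by
    have h1 : r - 1 < 16 * J * (y + 1) := by
      rw [hy]
      exact Nat.lt_mul_div_succ _ (by omega)
    have h2 : 16 * J * (y + 1) ≤ 16 * J * m := Nat.mul_le_mul_left _ hym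
    omega
  have hrm2' : (r : ℝ) ≤ 16 * J * m := by exact_mod_cast hrm2
  -- the size of `m`
  have hmx : x ≤ 32 * m := by
    have hlk' : 0 < Real.log k := hlk
    have hm0 : (0 : ℝ) ≤ m := Nat.cast_nonneg m
    have h1 : (J : ℝ) ≤ 2 * Real.log k := by nlinarith
    have h2 : x * Real.log k ≤ 32 * m * Real.log k := by
      rw [hxr]
      calc (r : ℝ) ≤ 16 * J * m := hrm2'
        _ ≤ 16 * (2 * Real.log k) * m := by
          refine mul_le_mul_of_nonneg_right ?_ hm0
          linarith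
        _ = _ := by ring
    exact le_of_mul_le_mul_right h2 hlk'
  have hmexp : 4 * Real.exp (120000 * (b : ℝ) ^ 4) ≤ m := by
    have h1 : Real.exp (120000 * (b : ℝ) ^ 4) ≤ Real.exp (lam / 4) := by
      rw [Real.exp_le_exp]
      linarith
    set s : ℝ := Real.exp (lam / 4) with hs
    have hs0 : 0 < s := Real.exp_pos _
    have hs4 : s ^ 4 = x := by
      rw [hs, ← Real.exp_nat_mul]
      push_cast
      rw [show (4 : ℝ) * (lam / 4) = lam by ring, hlam, Real.exp_log hx0]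
    have hs11 : 11 ≤ s := by
      by_contra hcon
      push Not at hcon
      have : s ^ 4 < 11 ^ 4 := pow_lt_pow_left₀ hcon hs0.le (by norm_num)
      rw [hs4] at this
      norm_num at this
      norm_num at hx128
      linarith
    have hs3 : 128 * s ≤ x := by
      rw [← hs4]
      have h3 : (11 : ℝ) ^ 3 ≤ s ^ 3 := pow_le_pow_left₀ (by norm_num) hs11 3
      nlinarith
    linarith
  have hkδ : (k : ℝ) * (2 / b) ^ J < 1 := by
    have hb0 : (0 : ℝ) < b := by linarith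
    have hk0 : (0 : ℝ) < k := lt_of_lt_of_le hr0 (by exact_mod_cast hrk)
    have h1 : (2 / (b : ℝ)) ^ J = Real.exp (-(J * L)) := by
      have h2 : (2 / (b : ℝ)) = Real.exp (-L) := by
        rw [hL, Real.exp_neg, Real.exp_log (by positivity), inv_div]
      rw [h2, ← Real.exp_nat_mul]
      ring_nf
    rw [h1]
    calc (k : ℝ) * Real.exp (-(J * L)) = Real.exp (Real.log k) * Real.exp (-(J * L)) := by
          rw [Real.exp_log hk0]
      _ = Real.exp (Real.log k - J * L) := by rw [← Real.exp_add]; ring_nf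
      _ < 1 := by rw [Real.exp_lt_one_iff]; linarith
  obtain ⟨n, H, hH, htau⟩ := lower_step r k b J m (by omega) hmexp hrm hkδ (by omega)
  refine ⟨n, H, hH, ?_⟩
  have hm4 : (4 : ℝ) ≤ m := by
    have := Real.add_one_le_exp (120000 * (b : ℝ) ^ 4)
    have : (0 : ℝ) ≤ 120000 * (b : ℝ) ^ 4 := by positivity
    linarith
  have hm4' : 4 ≤ m := by exact_mod_cast hm4
  have ht : (J : ℝ) * (m : ℝ) ^ 2 / 16 ≤ tau H := by
    have h1 : J * (m ^ 2 / 8) ≤ tau H := htau.le
    have h2 : m ^ 2 ≤ 16 * (m ^ 2 / 8) := by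
      have : 16 ≤ m ^ 2 := by nlinarith
      omega
    have h3 : J * m ^ 2 ≤ 16 * tau H := by
      calc J * m ^ 2 ≤ J * (16 * (m ^ 2 / 8)) := Nat.mul_le_mul_left _ h2
        _ = 16 * (J * (m ^ 2 / 8)) := by ring
        _ ≤ _ := Nat.mul_le_mul_left _ h1
    have h4 : (J : ℝ) * (m : ℝ) ^ 2 ≤ 16 * tau H := by exact_mod_cast h3
    linarith
  refine le_trans ?_ ht
  have hJ0 : (0 : ℝ) < J := by linarith
  have hr2 : (r : ℝ) ^ 2 ≤ 256 * J * (J * (m : ℝ) ^ 2) := by
    calc (r : ℝ) ^ 2 ≤ (16 * J * m) ^ 2 := pow_le_pow_left₀ hr0.le hrm2' 2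
      _ = _ := by ring
  have hll : 0 ≤ Real.log lam := Real.log_nonneg (by linarith)
  -- final computation
  have h5 : Real.log lam ≤ 5 * L := by linarith
  have h6 : 1 / 40960 * ((r : ℝ) ^ 2 / Real.log k) * Real.log lam ≤
      1 / 40960 * ((r : ℝ) ^ 2 / Real.log k) * (5 * L) :=
    mul_le_mul_of_nonneg_left h5 (by positivity)
  refine h6.trans ?_
  have h7 : 1 / 40960 * ((r : ℝ) ^ 2 / Real.log k) * (5 * L) = (r : ℝ) ^ 2 * L / (8192 * Real.log k) := by
    field_simp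
    norm_num
  rw [h7, div_le_div_iff₀ (by positivity) (by norm_num)]
  have hJm : 0 ≤ (J : ℝ) * (m : ℝ) ^ 2 := by positivity
  calc (r : ℝ) ^ 2 * L * 16 ≤ 256 * J * (J * (m : ℝ) ^ 2) * L * 16 := by
        refine mul_le_mul_of_nonneg_right (mul_le_mul_of_nonneg_right hr2 (by linarith)) (by norm_num)
    _ = (J * (m : ℝ) ^ 2) * (J * L) * 4096 := by ring
    _ ≤ (J * (m : ℝ) ^ 2) * (2 * Real.log k) * 4096 := by
        refine mul_le_mul_of_nonneg_right (mul_le_mul_of_nonneg_left hJ2 hJm) (by norm_num)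
    _ = _ := by ring

end Pool.Agent.TH482
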