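import Pool.Agent.TH482.Sat

/-!
# The nibble theorem with an explicit dependence of the codegree bound

The proof repeats the one of the library (files of the folders `H18R2` and `H204R2`), keeping track
of the bound on the codegrees.
-/

set_option autoImplicit false

namespace Pool.Agent.TH482

open Finset H115R4

/-- the nibble with explicit codegree bound `κ` -/
def NibK (r : ℕ) (c κ : ℝ) : Prop :=
  ∀ (ι α : Type) [Fintype ι] [DecidableEq ι] [Fintype α] [DecidableEq α]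
    (A : ι → Finset α) (w : ι → ℝ), Good A w r κ →
    ∃ M : Finset ι, IsMatching A M ∧ (∀ e ∈ M, 0 < w e) ∧ c * ∑ e, w e ≤ (M.card : ℝ)

theorem cv_bd_T : cv_bd := cv_bd_proof
theorem Ex_iso_T : Ex_iso := Ex_iso_of Ex_pick_proof
theorem Ex_wn_T : Ex_wn :=
  Ex_wn_of (second_moment_of' cv_bd_proof sp_lower_proof (Ex_sp_of Ex_surv_proof))
      sp_lower_proof (Ex_sp_of Ex_surv_proof) Ex_mono_proof cv_bd_proof

theorem one_roundK (r : ℕ) (c t η κ κc d : ℝ) (hc0 : 0 ≤ c) (ht0 : 0 < t) (ht : t ≤ 1 / 2)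
    (hd0 : 0 < d) (hd1 : d ≤ 1) (hd2 : d ≤ η / 2) (hκ0 : 0 < κ) (hκ1 : κ ≤ 1)
    (hκ2 : 2 ^ r * κ ≤ κc) (hκ3 : 8 * (r : ℝ) ^ 2 * κ ≤ 1)
    (hκ4 : 2 * r / d ^ 2 * ((8 * (r : ℝ) ^ 2 + 4 ^ r * (r + 1)) * κ) ≤ η / 2)
    (hN : NibK r c κc) : NibK r (t * (1 - t * r) + c * (1 - t - η)) κ := by
  classical
  set C : ℝ := 8 * (r : ℝ) ^ 2 + 4 ^ r * (r + 1) with hC
  intro ι α _ _ _ _ A w hG
  set W : ℝ := ∑ e, w e with hW
  have hW0 : 0 ≤ W := Finset.sum_nonneg fun e _ => hG.nonneg e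
  have hp : ∀ e, 0 ≤ t * w e ∧ t * w e ≤ 1 := by
    intro e
    have h6 := hG.nonneg e
    have h7 := hG.w_le e
    constructor
    · positivity
    · nlinarith
  have hcv : ∀ v, 0 ≤ cv A w t v ∧ cv A w t v ≤ 1 := fun v =>
    (cv_bd_T ι α A w r κ t hG ht0.le ht hκ1 v).2
  -- the expectation
  have hiso := Ex_iso_T ι α A w r κ t (cv A w t) hG ht0.le (by nlinarith) hcv
  have hwn := Ex_wn_T ι α A w r κ t d hG ht0.le ht hd0 hd1 hκ1 hκ3
  obtain ⟨x, y, hxy⟩ := Ex_exists_proof ι α (fun e => t * w e) (cv A w t) hp hcv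
    (fun x y => ((iso A w x).card : ℝ) + c * ∑ e, wn A w t d x y e)
  rw [NF.Ex_add_mul (fun e => t * w e) (cv A w t) (fun x _ => ((iso A w x).card : ℝ))
    (fun x y => ∑ e, wn A w t d x y e) c] at hxy
  -- the matching
  have hGn := wn_good_proof ι α A w r κ κc t d hG ht0.le ht hd0 hκ2 x y
  obtain ⟨M', hM'1, hM'2, hM'3⟩ := hN ι α A (wn A w t d x y) hGn
  set M := iso A w x with hM
  have hMm : ∀ e ∈ M, 0 < w e ∧ x e = true ∧ ∀ f, f ≠ e → x f = true → Disjoint (A e) (A f) := by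
    intro e he
    rw [hM, iso, Finset.mem_filter] at he
    exact he.2
  have hcross : ∀ e ∈ M, ∀ f ∈ M', Disjoint (A e) (A f) := by
    intro e he f hf
    rw [Finset.disjoint_left]
    intro v hve hvf
    have h8 := (NF.wn_pos ht hd0 (hM'2 f hf)).1 v hvf
    have h9 := h8.2 e hve
    rw [(hMm e he).2.1] at h9
    exact absurd h9 (by decide)
  have hdis : Disjoint M M' := by
    rw [Finset.disjoint_left]
    intro e he he'
    obtain ⟨v, hv⟩ := hG.nonempty e
    exact (Finset.disjoint_left.1 (hcross e he e he')) hv hv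
  refine ⟨M ∪ M', ?_, ?_, ?_⟩
  · intro e he f hf hef
    rw [Finset.mem_union] at he hf
    rcases he with he | he
    · rcases hf with hf | hf
      · exact (hMm e he).2.2 f (Ne.symm hef) (hMm f hf).2.1
      · exact hcross e he f hf
    · rcases hf with hf | hf
      · exact (hcross f hf e he).symm
      · exact hM'1 e he f hf hef
  · intro e he
    rw [Finset.mem_union] at he
    rcases he with he | he
    · exact (hMm e he).1
    · exact (NF.wn_pos ht hd0 (hM'2 e he)).2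
  · rw [Finset.card_union_of_disjoint hdis]
    push_cast
    have h10 : (1 - t - η) * W ≤
        ((1 - t) - 2 * r / d ^ 2 * (C * κ)) / (1 + d) * W := by
      refine mul_le_mul_of_nonneg_right ?_ hW0
      rw [le_div_iff₀ (by linarith)]
      have hη : 0 < η := by linarith
      have h11 : 0 ≤ d * η := by positivity
      have h12 : 0 ≤ d * t := by positivity
      nlinarith
    have h13 : c * ((1 - t - η) * W) ≤
        c * Ex (fun e => t * w e) (cv A w t) (fun x y => ∑ e, wn A w t d x y e) :=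
      mul_le_mul_of_nonneg_left (h10.trans hwn) hc0
    have h14 : (t * (1 - t * r) + c * (1 - t - η)) * W =
        t * (1 - t * r) * W + c * ((1 - t - η) * W) := by ring
    rw [h14]
    linarith

theorem NibK_zero (r : ℕ) (κ : ℝ) : NibK r 0 κ := by
  intro ι α _ _ _ _ A w _
  refine ⟨∅, ?_, ?_, ?_⟩
  · intro e he; simp at he
  · intro e he; simp at he
  · simp

theorem NibK_mono {r : ℕ} {c c' κ : ℝ} (hc : c' ≤ c) (h : NibK r c κ) : NibK r c' κ := by
  intro ι α _ _ _ _ A w hg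
  obtain ⟨M, h1, h2, h3⟩ := h ι α A w hg
  refine ⟨M, h1, h2, le_trans ?_ h3⟩
  exact mul_le_mul_of_nonneg_right hc (Finset.sum_nonneg fun e _ => hg.nonneg e)

/-- `k` rounds -/
theorem roundsK (r : ℕ) (θ t η d κ₀ : ℝ) (hθ0 : 0 < θ) (hθ1 : θ < 1) (ht0 : 0 < t)
    (ht4 : t ≤ 1 / 4) (htr : t * r ≤ θ / 4) (hη : η = t * θ / 4) (hd : d = η / 2)
    (hκ0 : 0 < κ₀) (hκ1 : κ₀ ≤ 1) (hκ3 : 8 * (r : ℝ) ^ 2 * κ₀ ≤ 1)
    (hκ4 : 2 * r / d ^ 2 * ((8 * (r : ℝ) ^ 2 + 4 ^ r * (r + 1)) * κ₀) ≤ η / 2)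
    (k : ℕ) (hk : (1 - t) ^ k < θ / 2) : NibK r (1 - θ) (κ₀ / 2 ^ (r * k)) := by
  have hr0 : (0:ℝ) ≤ r := Nat.cast_nonneg r
  have hη0 : 0 < η := by rw [hη]; positivity
  have hη1 : η ≤ t / 4 := by
    rw [hη]
    nlinarith
  have hd0 : 0 < d := by rw [hd]; positivity
  have hd1 : d ≤ 1 := by rw [hd]; linarith
  set A : ℝ := t * (1 - t * r) with hA
  set B : ℝ := 1 - t - η with hB
  have hA0 : 0 ≤ A := by
    rw [hA]
    apply mul_nonneg ht0.le
    linarith
  have hA1 : A ≤ t := by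
    rw [hA]
    have : 0 ≤ t * (t * r) := by positivity
    nlinarith
  have hB0 : 0 < B := by rw [hB]; linarith
  have hB1 : B < 1 := by rw [hB]; linarith
  have h1B : 0 < 1 - B := by linarith
  -- the iteration
  have key : ∀ k : ℕ, 0 ≤ A / (1 - B) * (1 - B^k) ∧ A / (1 - B) * (1 - B^k) ≤ 1 ∧
      NibK r (A / (1 - B) * (1 - B^k)) (κ₀ / 2 ^ (r * k)) := by
    intro k
    induction k with
    | zero =>
      rw [pow_zero, sub_self, mul_zero]
      exact ⟨le_rfl, zero_le_one, NibK_zero r _⟩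
    | succ k ih =>
      obtain ⟨i1, i2, i3⟩ := ih
      have e1 : A / (1 - B) * (1 - B^(k+1)) = A + (A / (1 - B) * (1 - B^k)) * B := by
        field_simp
        ring
      have hpos : (0 : ℝ) < 2 ^ (r * (k + 1)) := by positivity
      have hle1 : (1 : ℝ) ≤ 2 ^ (r * (k + 1)) := one_le_pow₀ (by norm_num)
      have hle : κ₀ / 2 ^ (r * (k + 1)) ≤ κ₀ := div_le_self hκ0.le hle1
      have h1 := one_roundK r (A / (1 - B) * (1 - B^k)) t η (κ₀ / 2 ^ (r * (k + 1)))
        (κ₀ / 2 ^ (r * k)) d i1 ht0 (by linarith) hd0 hd1 hd.le (by positivity)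
        (hle.trans hκ1)
        (by
          rw [mul_add, mul_one, pow_add]
          apply le_of_eq
          field_simp)
        (le_trans (mul_le_mul_of_nonneg_left hle (by positivity)) hκ3)
        (le_trans (mul_le_mul_of_nonneg_left (mul_le_mul_of_nonneg_left hle (by positivity))
          (by positivity)) hκ4)
        i3
      refine ⟨?_, ?_, ?_⟩
      · rw [e1]
        exact add_nonneg hA0 (mul_nonneg i1 hB0.le)
      · rw [e1]
        have : (A / (1 - B) * (1 - B^k)) * B ≤ 1 * B := mul_le_mul_of_nonneg_right i2 hB0.le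
        rw [hB] at this ⊢
        linarith
      · rw [e1]
        exact h1
  obtain ⟨-, -, h3⟩ := key k
  refine NibK_mono ?_ h3
  have hBk : B ^ k < θ / 2 := by
    refine lt_of_le_of_lt (pow_le_pow_left₀ hB0.le ?_ k) hk
    rw [hB]
    linarith
  have hL : 1 - θ / 2 ≤ A / (1 - B) := by
    rw [le_div_iff₀ h1B, hA, hB]
    have e2 : 1 - (1 - t - η) = t * (1 + θ / 4) := by rw [hη]; ring
    rw [e2]
    have h5 : (1 - θ / 2) * (1 + θ / 4) ≤ 1 - t * r := by nlinarith [sq_nonneg θ]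
    calc (1 - θ / 2) * (t * (1 + θ / 4)) = t * ((1 - θ / 2) * (1 + θ / 4)) := by ring
      _ ≤ t * (1 - t * r) := mul_le_mul_of_nonneg_left h5 ht0.le
  have h6 : 1 - θ / 2 ≤ 1 - B^k := by linarith
  have h7 : (1 - θ / 2) * (1 - θ / 2) ≤ A / (1 - B) * (1 - B^k) :=
    mul_le_mul hL h6 (by linarith) (by linarith)
  nlinarith [sq_nonneg θ]

/-- arbitrary vertex types -/
theorem nibP_of (r : ℕ) (θ κ : ℝ) (h : NibK r (1 - θ) κ) : NibP r θ κ := by
  classical
  intro ι α _ _ _ A w h0 hne hr hdeg hcod hw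
  set V : Finset α := univ.biUnion A with hV
  set A' : ι → Finset {v // v ∈ V} := fun e => univ.filter (fun v => v.1 ∈ A e) with hA'
  have hmem : ∀ (e : ι) (v : {v // v ∈ V}), v ∈ A' e ↔ v.1 ∈ A e := by
    intro e v
    simp [hA']
  have hsub : ∀ e, ∀ v ∈ A e, v ∈ V := by
    intro e v hv
    rw [hV, Finset.mem_biUnion]
    exact ⟨e, Finset.mem_univ _, hv⟩
  have hgood : Good A' w r κ := by
    refine ⟨h0, ?_, ?_, ?_, ?_, hw⟩
    · intro e
      obtain ⟨v, hv⟩ := hne e
      exact ⟨⟨v, hsub e v hv⟩, (hmem _ _).mpr hv⟩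
    · intro e
      refine le_trans ?_ (hr e)
      apply Finset.card_le_card_of_injOn (fun v : {v // v ∈ V} => v.1)
      · intro v hv
        exact (hmem _ _).mp hv
      · intro v _ v' _ hvv
        exact Subtype.ext hvv
    · intro v
      unfold deg
      have : univ.filter (fun e => v ∈ A' e) = univ.filter (fun e => v.1 ∈ A e) := by
        apply Finset.filter_congr
        intro e _
        exact hmem e v
      rw [this]
      exact hdeg v.1
    · intro u v huv
      unfold codeg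
      have : univ.filter (fun e => u ∈ A' e ∧ v ∈ A' e) =
          univ.filter (fun e => u.1 ∈ A e ∧ v.1 ∈ A e) := by
        apply Finset.filter_congr
        intro e _
        rw [hmem, hmem]
      rw [this]
      exact hcod u.1 v.1 (fun hh => huv (Subtype.ext hh))
  obtain ⟨M, h1, h2, h3⟩ := h ι {v // v ∈ V} A' w hgood
  refine ⟨M, ?_, h2, h3⟩
  intro e he f hf hef
  have hd := h1 e he f hf hef
  rw [Finset.disjoint_left] at hd ⊢
  intro v hv hv'
  exact hd ((hmem e ⟨v, hsub e v hv⟩).mpr hv) ((hmem f ⟨v, hsub e v hv⟩).mpr hv')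

end Pool.Agent.TH482
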