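import Pool.Agent.TH482.QNib

/-!
# An explicit codegree bound for the nibble
-/

set_option autoImplicit false

namespace Pool.Agent.TH482

open Finset

theorem NibP_anti {b : ℕ} {θ κ κ' : ℝ} (h : NibP b θ κ) (hκ : κ' ≤ κ) : NibP b θ κ' := by
  intro ι α _ _ _ A w h1 h2 h3 h4 h5 h6
  exact h ι α A w h1 h2 h3 h4 (fun u v huv => (h5 u v huv).trans hκ) (fun e => (h6 e).trans hκ)

theorem nib_explicit (b : ℕ) (hb : 1 ≤ b) :
    NibP (b + 1) (1 / (16 * b)) (Real.exp (-(60000 * (b : ℝ) ^ 4))) := by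
  have hb1 : (1 : ℝ) ≤ b := by exact_mod_cast hb
  have hb0 : (0 : ℝ) < b := by linarith
  set B : ℝ := (b : ℝ) with hB
  set r : ℕ := b + 1 with hr
  have hrc : (r : ℝ) = B + 1 := by rw [hr]; push_cast; rfl
  set θ : ℝ := 1 / (16 * B) with hθ
  set t : ℝ := 1 / (64 * B * (B + 2)) with ht
  set η : ℝ := t * θ / 4 with hη
  set d : ℝ := η / 2 with hd
  set Q : ℝ := 8 * (r : ℝ) ^ 2 + 4 ^ r * (r + 1) with hQ
  have hQ0 : 0 < Q := by positivity
  have hr0 : (0 : ℝ) < r := by rw [hrc]; positivity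
  have hr1 : (1 : ℝ) ≤ r := by rw [hrc]; linarith
  have hθ0 : 0 < θ := by positivity
  have hθ1 : θ < 1 := by
    rw [hθ, div_lt_one (by positivity)]
    linarith
  have ht0 : 0 < t := by positivity
  have ht4 : t ≤ 1 / 4 := by
    rw [ht, div_le_div_iff₀ (by positivity) (by norm_num)]
    nlinarith
  have htr : t * r ≤ θ / 4 := by
    rw [ht, hθ, hrc, div_mul_eq_mul_div, div_div, div_le_div_iff₀ (by positivity) (by positivity)]
    nlinarith
  have hη0 : 0 < η := by positivity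
  have hη1 : η ≤ 1 := by
    rw [hη]
    nlinarith
  have hd0 : 0 < d := by positivity
  set κ₀ : ℝ := η ^ 3 / (16 * r * Q) with hκ₀
  have hκ0 : 0 < κ₀ := by positivity
  have hη3 : η ^ 3 ≤ 1 := pow_le_one₀ hη0.le hη1
  have hQ8 : 8 * (r : ℝ) ^ 2 ≤ Q := by
    rw [hQ]
    have : (0 : ℝ) ≤ 4 ^ r * (r + 1) := by positivity
    linarith
  have hκ3 : 8 * (r : ℝ) ^ 2 * κ₀ ≤ 1 := by
    rw [hκ₀, mul_div_assoc', div_le_one (by positivity)]
    calc 8 * (r : ℝ) ^ 2 * η ^ 3 ≤ 8 * (r : ℝ) ^ 2 * 1 :=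
          mul_le_mul_of_nonneg_left hη3 (by positivity)
      _ ≤ Q := by rw [mul_one]; exact hQ8
      _ = 1 * Q := (one_mul _).symm
      _ ≤ 16 * r * Q := mul_le_mul_of_nonneg_right (by linarith) hQ0.le
  have hκ1 : κ₀ ≤ 1 := by
    have h1 : 1 * κ₀ ≤ 8 * (r : ℝ) ^ 2 * κ₀ :=
      mul_le_mul_of_nonneg_right (by nlinarith) hκ0.le
    linarith
  have hκ4 : 2 * r / d ^ 2 * (Q * κ₀) ≤ η / 2 := by
    apply le_of_eq
    rw [hκ₀, hd]
    field_simp
    norm_num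
  set k : ℕ := 2048 * b ^ 2 * (b + 2) + 1 with hk
  have hkc : (k : ℝ) = 2048 * B ^ 2 * (B + 2) + 1 := by rw [hk]; push_cast; rfl
  have hkθ : (1 - t) ^ k < θ / 2 := by
    have h1 : 1 - t ≤ Real.exp (-t) := by
      have := Real.add_one_le_exp (-t)
      linarith
    have h2 : (1 - t) ^ k ≤ Real.exp (-t) ^ k := pow_le_pow_left₀ (by linarith) h1 k
    rw [← Real.exp_nat_mul] at h2
    refine lt_of_le_of_lt h2 ?_
    have h3 : θ / 2 = (32 * B)⁻¹ := by
      rw [hθ]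
      field_simp
      norm_num
    rw [h3, ← Real.exp_log (show (0 : ℝ) < (32 * B)⁻¹ by positivity), Real.exp_lt_exp, Real.log_inv]
    have h4 : Real.log (32 * B) ≤ 32 * B - 1 := Real.log_le_sub_one_of_pos (by positivity)
    have h5 : 32 * B ≤ (k : ℝ) * t := by
      rw [hkc, ht, mul_one_div, le_div_iff₀ (by positivity)]
      nlinarith [sq_nonneg B]
    nlinarith
  have hmain := nibP_of r θ _ (roundsK r θ t η d κ₀ hθ0 hθ1 ht0 ht4 htr rfl rfl hκ0 hκ1 hκ3 hκ4 k hkθ)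
  refine NibP_anti hmain ?_
  -- the size of the bound
  rw [Real.exp_neg, hκ₀, div_div, le_div_iff₀ (by positivity), inv_mul_le_iff₀ (Real.exp_pos _)]
  have hηeq : η = 1 / (4096 * B ^ 2 * (B + 2)) := by
    rw [hη, ht, hθ]
    field_simp
    norm_num
  rw [hηeq, one_div, inv_pow, ← div_eq_mul_inv, le_div_iff₀ (by positivity)]
  -- every factor is at most an exponential
  have hexp : ∀ x : ℝ, x ≤ Real.exp x := fun x => by
    have := Real.add_one_le_exp x
    linarith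
  have h2e : (2 : ℝ) ≤ Real.exp 1 := by
    have := Real.add_one_le_exp (1 : ℝ)
    linarith
  have f1 : (2 : ℝ) ^ (r * k) ≤ Real.exp (12290 * B ^ 4) := by
    calc (2 : ℝ) ^ (r * k) ≤ Real.exp 1 ^ (r * k) := pow_le_pow_left₀ (by norm_num) h2e _
      _ = Real.exp ((r * k : ℕ) * 1) := by rw [← Real.exp_nat_mul]
      _ ≤ _ := by
        rw [Real.exp_le_exp, Nat.cast_mul, hrc, hkc, mul_one]
        nlinarith [mul_nonneg hb0.le (sub_nonneg.2 hb1), mul_nonneg (pow_pos hb0 2).le (sub_nonneg.2 hb1), mul_nonneg (pow_pos hb0 3).le (sub_nonneg.2 hb1)]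
  have f2 : 16 * (r : ℝ) ≤ Real.exp (32 * B ^ 4) := by
    refine le_trans ?_ (hexp _)
    rw [hrc]
    nlinarith [mul_nonneg hb0.le (sub_nonneg.2 hb1), mul_nonneg (pow_pos hb0 2).le (sub_nonneg.2 hb1), mul_nonneg (pow_pos hb0 3).le (sub_nonneg.2 hb1)]
  have f3 : Q ≤ Real.exp (60 * B ^ 4) := by
    have g1 : (4 : ℝ) ^ r ≤ Real.exp (4 * B ^ 4) := by
      have h4 : (4 : ℝ) ≤ Real.exp 2 := by
        have h := mul_le_mul h2e h2e (by norm_num) (Real.exp_pos 1).le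
        rw [← Real.exp_add] at h
        norm_num at h
        exact h
      calc (4 : ℝ) ^ r ≤ Real.exp 2 ^ r := pow_le_pow_left₀ (by norm_num) h4 _
        _ = Real.exp (r * 2) := by rw [← Real.exp_nat_mul]
        _ ≤ _ := by
          rw [Real.exp_le_exp, hrc]
          nlinarith [mul_nonneg hb0.le (sub_nonneg.2 hb1), mul_nonneg (pow_pos hb0 2).le (sub_nonneg.2 hb1), mul_nonneg (pow_pos hb0 3).le (sub_nonneg.2 hb1)]
    have g2 : 8 * (r : ℝ) ^ 2 + (r + 1) ≤ Real.exp (56 * B ^ 4) := by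
      refine le_trans ?_ (hexp _)
      rw [hrc]
      nlinarith [mul_nonneg hb0.le (sub_nonneg.2 hb1), mul_nonneg (pow_pos hb0 2).le (sub_nonneg.2 hb1), mul_nonneg (pow_pos hb0 3).le (sub_nonneg.2 hb1)]
    have g3 : (1 : ℝ) ≤ 4 ^ r := one_le_pow₀ (by norm_num)
    calc Q = 1 * (8 * (r : ℝ) ^ 2) + 4 ^ r * (r + 1) := by rw [hQ, one_mul]
      _ ≤ 4 ^ r * (8 * (r : ℝ) ^ 2) + 4 ^ r * (r + 1) := by
          have := mul_le_mul_of_nonneg_right g3 (show (0 : ℝ) ≤ 8 * (r : ℝ) ^ 2 by positivity)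
          linarith
      _ = 4 ^ r * (8 * (r : ℝ) ^ 2 + (r + 1)) := by ring
      _ ≤ Real.exp (4 * B ^ 4) * Real.exp (56 * B ^ 4) :=
          mul_le_mul g1 g2 (by positivity) (Real.exp_pos _).le
      _ = Real.exp (60 * B ^ 4) := by rw [← Real.exp_add]; ring_nf
  have f4 : (4096 * B ^ 2 * (B + 2)) ^ 3 ≤ Real.exp (36864 * B ^ 4) := by
    have g1 : 4096 * B ^ 2 * (B + 2) ≤ Real.exp (12288 * B ^ 4) := by
      refine le_trans ?_ (hexp _)
      nlinarith [mul_nonneg hb0.le (sub_nonneg.2 hb1), mul_nonneg (pow_pos hb0 2).le (sub_nonneg.2 hb1), mul_nonneg (pow_pos hb0 3).le (sub_nonneg.2 hb1)]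
    calc _ ≤ Real.exp (12288 * B ^ 4) ^ 3 := pow_le_pow_left₀ (by positivity) g1 3
      _ = _ := by rw [← Real.exp_nat_mul]; push_cast; ring_nf
  calc 16 * (r : ℝ) * Q * 2 ^ (r * k) * (4096 * B ^ 2 * (B + 2)) ^ 3
      ≤ Real.exp (32 * B ^ 4) * Real.exp (60 * B ^ 4) * Real.exp (12290 * B ^ 4) *
        Real.exp (36864 * B ^ 4) := by
        refine mul_le_mul (mul_le_mul (mul_le_mul f2 f3 hQ0.le (Real.exp_pos _).le) f1
          (by positivity) (by positivity)) f4 (by positivity) (by positivity)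
    _ = Real.exp (49246 * B ^ 4) := by
        rw [← Real.exp_add, ← Real.exp_add, ← Real.exp_add]
        ring_nf
    _ ≤ Real.exp (60000 * B ^ 4) := by
        rw [Real.exp_le_exp]
        have : 0 ≤ B ^ 4 := by positivity
        linarith

theorem sat_explicit (b : ℕ) (hb : 1 ≤ b) :
    SatP (b + 1) (1 / (16 * b)) (Real.exp (-(60000 * (b : ℝ) ^ 4))) :=
  sat_of_nib _ _ _ (Real.exp_pos _) (nib_explicit b hb)

end Pool.Agent.TH482
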