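import Pool.Agent.TH482.Nib

/-!
# The nibble with saturated columns

Every edge `e` has for each column `l` either a real vertex `c e l = some y` or none; dummy vertices
are added so that each column gets nearly as many real vertices as the fractional matching has.
-/

set_option autoImplicit false

namespace Pool.Agent.TH482

open Finset

section count

variable {β : Type} [Fintype β] [DecidableEq β] (n : β → ℕ)

theorem count_one (l : β) (a : ℕ) :
    (univ.filter (fun ζ : (j : β) → Fin (n j) => (ζ l : ℕ) = a)).card * n l ≤ ∏ j, n j := by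
  classical
  have hsub : (univ.filter (fun ζ : (j : β) → Fin (n j) => (ζ l : ℕ) = a)) ⊆
      Fintype.piFinset (fun j => (univ.filter (fun x : Fin (n j) => j = l → (x : ℕ) = a))) := by
    intro ζ hζ
    rw [Fintype.mem_piFinset]
    intro j
    simp only [mem_filter, mem_univ, true_and] at hζ ⊢
    intro h
    subst h
    exact hζ
  have h1 := card_le_card hsub
  rw [Fintype.card_piFinset] at h1
  have h2 : ∀ j, (univ.filter (fun x : Fin (n j) => j = l → (x : ℕ) = a)).card ≤
      if j = l then 1 else n j := by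
    intro j
    by_cases hj : j = l
    · rw [if_pos hj]
      rw [Finset.card_le_one]
      intro x hx y hy
      simp only [mem_filter, mem_univ, true_and] at hx hy
      exact Fin.ext ((hx hj).trans (hy hj).symm)
    · rw [if_neg hj]
      exact (card_le_univ _).trans_eq (Fintype.card_fin _)
  have h3 : (∏ j, if j = l then 1 else n j) * n l = ∏ j, n j := by
    rw [← Finset.mul_prod_erase univ n (mem_univ l),
      ← Finset.mul_prod_erase univ (fun j => if j = l then 1 else n j) (mem_univ l)]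
    rw [if_pos rfl, one_mul, mul_comm]
    congr 1
    refine prod_congr rfl fun j hj => ?_
    rw [if_neg (ne_of_mem_erase hj)]
  calc _ ≤ (∏ j, if j = l then 1 else n j) * n l :=
        Nat.mul_le_mul_right _ (h1.trans (prod_le_prod' fun j _ => h2 j))
    _ = _ := h3

theorem count_two (l l' : β) (hl : l ≠ l') (a a' : ℕ) :
    (univ.filter (fun ζ : (j : β) → Fin (n j) => (ζ l : ℕ) = a ∧ (ζ l' : ℕ) = a')).card *
      (n l * n l') ≤ ∏ j, n j := by
  classical
  have hsub : (univ.filter (fun ζ : (j : β) → Fin (n j) => (ζ l : ℕ) = a ∧ (ζ l' : ℕ) = a')) ⊆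
      Fintype.piFinset (fun j => (univ.filter
        (fun x : Fin (n j) => (j = l → (x : ℕ) = a) ∧ (j = l' → (x : ℕ) = a')))) := by
    intro ζ hζ
    rw [Fintype.mem_piFinset]
    intro j
    simp only [mem_filter, mem_univ, true_and] at hζ ⊢
    constructor
    · intro h
      subst h
      exact hζ.1
    · intro h
      subst h
      exact hζ.2
  have h1 := card_le_card hsub
  rw [Fintype.card_piFinset] at h1
  have h2 : ∀ j, (univ.filter
        (fun x : Fin (n j) => (j = l → (x : ℕ) = a) ∧ (j = l' → (x : ℕ) = a'))).card ≤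
      if j = l ∨ j = l' then 1 else n j := by
    intro j
    by_cases hj : j = l ∨ j = l'
    · rw [if_pos hj]
      rw [Finset.card_le_one]
      intro x hx y hy
      simp only [mem_filter, mem_univ, true_and] at hx hy
      rcases hj with hj | hj
      · exact Fin.ext ((hx.1 hj).trans (hy.1 hj).symm)
      · exact Fin.ext ((hx.2 hj).trans (hy.2 hj).symm)
    · rw [if_neg hj]
      exact (card_le_univ _).trans_eq (Fintype.card_fin _)
  have h3 : (∏ j, if j = l ∨ j = l' then 1 else n j) * (n l * n l') = ∏ j, n j := by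
    have hmem : l' ∈ univ.erase l := mem_erase.2 ⟨hl.symm, mem_univ _⟩
    rw [← Finset.mul_prod_erase univ n (mem_univ l),
      ← Finset.mul_prod_erase (univ.erase l) n hmem,
      ← Finset.mul_prod_erase univ (fun j => if j = l ∨ j = l' then 1 else n j) (mem_univ l),
      ← Finset.mul_prod_erase (univ.erase l) (fun j => if j = l ∨ j = l' then 1 else n j) hmem]
    rw [if_pos (Or.inl rfl), if_pos (Or.inr rfl), one_mul, one_mul, mul_comm, mul_assoc]
    congr 2
    refine prod_congr rfl fun j hj => ?_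
    have hj' := mem_erase.1 hj
    have hj'' := mem_erase.1 hj'.2
    rw [if_neg (by rintro (h | h); exacts [hj''.1 h, hj'.1 h])]
  calc _ ≤ (∏ j, if j = l ∨ j = l' then 1 else n j) * (n l * n l') :=
        Nat.mul_le_mul_right _ (h1.trans (prod_le_prod' fun j _ => h2 j))
    _ = _ := h3

end count

/-- the vertex of the edge `(e, ζ)` in the column `l` -/
def vtx {ι β Y : Type} (c : ι → β → Option Y) {n : β → ℕ} (q : ι × ((j : β) → Fin (n j))) (l : β) :
    Y ⊕ ℕ :=
  match c q.1 l with
  | some y => Sum.inl y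
  | none => Sum.inr (q.2 l : ℕ)

theorem vtx_inl {ι β Y : Type} (c : ι → β → Option Y) {n : β → ℕ}
    (q : ι × ((j : β) → Fin (n j))) (l : β) (y : Y) :
    vtx c q l = Sum.inl y ↔ c q.1 l = some y := by
  unfold vtx
  rcases h : c q.1 l with _ | z
  · simp
  · simp

theorem vtx_inr {ι β Y : Type} (c : ι → β → Option Y) {n : β → ℕ}
    (q : ι × ((j : β) → Fin (n j))) (l : β) (a : ℕ) :
    vtx c q l = Sum.inr a ↔ c q.1 l = none ∧ (q.2 l : ℕ) = a := by
  unfold vtx
  rcases h : c q.1 l with _ | z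
  · simp
  · simp

/-- the nibble theorem for edges of size at most `b`, loss `θ` and codegrees at most `κ` -/
def NibP (b : ℕ) (θ κ : ℝ) : Prop :=
  ∀ (ι α : Type) [Fintype ι] [DecidableEq ι] [DecidableEq α]
      (A : ι → Finset α) (w : ι → ℝ),
      (∀ e, 0 ≤ w e) → (∀ e, (A e).Nonempty) → (∀ e, (A e).card ≤ b) →
      (∀ v, ∑ e ∈ univ.filter (fun e => v ∈ A e), w e ≤ 1) →
      (∀ u v, u ≠ v → ∑ e ∈ univ.filter (fun e => u ∈ A e ∧ v ∈ A e), w e ≤ κ) →
      (∀ e, w e ≤ κ) →
      ∃ M : Finset ι, (∀ e ∈ M, ∀ f ∈ M, e ≠ f → Disjoint (A e) (A f)) ∧ (∀ e ∈ M, 0 < w e) ∧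
        (1 - θ) * ∑ e, w e ≤ (M.card : ℝ)

/-- the nibble theorem with saturated columns -/
def SatP (b : ℕ) (θ κ : ℝ) : Prop :=
  ∀ (ι β Y : Type) [Fintype ι] [DecidableEq ι] [Fintype β] [DecidableEq β]
      [Nonempty β] [DecidableEq Y] (c : ι → β → Option Y) (w : ι → ℝ),
      Fintype.card β ≤ b →
      (∀ e, 0 ≤ w e) → (∀ e, w e ≤ κ) →
      (∀ l y, ∑ e ∈ univ.filter (fun e => c e l = some y), w e ≤ 1) →
      (∀ l l' y y', l ≠ l' →
        ∑ e ∈ univ.filter (fun e => c e l = some y ∧ c e l' = some y'), w e ≤ κ) →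
      ∃ M : Finset ι, (∀ e ∈ M, 0 < w e) ∧
        (∀ e ∈ M, ∀ e' ∈ M, e ≠ e' → ∀ l y, c e l = some y → c e' l ≠ some y) ∧
        ∀ l, (∑ e ∈ univ.filter (fun e => c e l ≠ none), w e) - θ * ∑ e, w e - 1 / κ - 1 ≤
          ((M.filter (fun e => c e l ≠ none)).card : ℝ)

theorem sat_of_nib (b : ℕ) (θ κ : ℝ) (hκ : 0 < κ) (hnib : NibP b θ κ) : SatP b θ κ := by
  classical
  intro ι β Y _ _ _ _ _ _ c w hb hw0 hwκ hdeg hcodeg
  -- numbers of dummies
  set Wn : β → ℝ := fun l => ∑ e ∈ univ.filter (fun e => c e l = none), w e with hWn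
  have hWn0 : ∀ l, 0 ≤ Wn l := fun l => sum_nonneg fun e _ => hw0 e
  let n : β → ℕ := fun l => ⌈Wn l + 1 / κ⌉₊
  have hn1 : ∀ l, Wn l + 1 / κ ≤ n l := fun l => Nat.le_ceil _
  have hκ' : 0 < 1 / κ := by positivity
  have hn2 : ∀ l, (n l : ℝ) < Wn l + 1 / κ + 1 := fun l =>
    Nat.ceil_lt_add_one (by have := hWn0 l; linarith)
  have hn0 : ∀ l, (0 : ℝ) < n l := fun l => by
    have := hWn0 l
    have := hn1 l
    linarith
  have hninv : ∀ l, 1 / (n l : ℝ) ≤ κ := by
    intro l
    rw [div_le_iff₀ (hn0 l)]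
    have h1 : 1 / κ ≤ n l := by
      have := hWn0 l
      have := hn1 l
      linarith
    rw [div_le_iff₀ hκ] at h1
    linarith
  let Z := (j : β) → Fin (n j)
  have hP0 : (0 : ℝ) < ∏ j, (n j : ℝ) := prod_pos fun j _ => hn0 j
  set p : ℝ := 1 / ∏ j, (n j : ℝ) with hp
  have hp0 : 0 < p := by positivity
  have hsum1 : ∑ _ζ : Z, p = 1 := by
    rw [sum_const, card_univ, nsmul_eq_mul]
    have : (Fintype.card Z : ℝ) = ∏ j, (n j : ℝ) := by
      simp only [Z, Fintype.card_pi, Fintype.card_fin]
      push_cast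
      rfl
    rw [this, hp]
    field_simp
  have hp1 : p ≤ 1 := by
    have hZ : Nonempty Z := ⟨fun j => ⟨0, by exact_mod_cast hn0 j⟩⟩
    calc p = ∑ _ζ ∈ ({hZ.some} : Finset Z), p := by rw [sum_singleton]
      _ ≤ ∑ _ζ : Z, p := sum_le_sum_of_subset_of_nonneg (subset_univ _) (fun _ _ _ => hp0.le)
      _ = 1 := hsum1
  have hc1 : ∀ (l : β) (a : ℕ), ∑ _ζ ∈ univ.filter (fun ζ : Z => (ζ l : ℕ) = a), p ≤ 1 / n l := by
    intro l a
    rw [sum_const, nsmul_eq_mul, le_div_iff₀ (hn0 l), hp]
    have h := count_one n l a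
    have h' : ((univ.filter (fun ζ : Z => (ζ l : ℕ) = a)).card : ℝ) * n l ≤ ∏ j, (n j : ℝ) := by
      exact_mod_cast h
    rw [mul_one_div, div_mul_eq_mul_div, div_le_one hP0]
    exact h'
  have hc2 : ∀ (l l' : β) (a a' : ℕ), l ≠ l' →
      ∑ _ζ ∈ univ.filter (fun ζ : Z => (ζ l : ℕ) = a ∧ (ζ l' : ℕ) = a'), p ≤
        1 / n l * (1 / n l') := by
    intro l l' a a' hll
    have h := count_two n l l' hll a a'
    have h' : ((univ.filter (fun ζ : Z => (ζ l : ℕ) = a ∧ (ζ l' : ℕ) = a')).card : ℝ) *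
        (n l * n l') ≤ ∏ j, (n j : ℝ) := by
      exact_mod_cast h
    rw [sum_const, nsmul_eq_mul, one_div_mul_one_div, le_div_iff₀ (mul_pos (hn0 l) (hn0 l')), hp]
    rw [mul_one_div, div_mul_eq_mul_div, div_le_one hP0]
    exact h'
  -- the hypergraph
  let A : ι × Z → Finset (β × (Y ⊕ ℕ)) := fun q => univ.image (fun l => (l, vtx c q l))
  have hmemA : ∀ q l z, (l, z) ∈ A q ↔ vtx c q l = z := by
    intro q l z
    simp only [A, mem_image, mem_univ, true_and, Prod.mk.injEq]
    constructor
    · rintro ⟨l', rfl, h⟩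
      exact h
    · intro h
      exact ⟨l, rfl, h⟩
  let wt : ι × Z → ℝ := fun q => w q.1 * p
  -- sums over products
  have hprod : ∀ (P : ι → Prop) (Q : Z → Prop) [DecidablePred P] [DecidablePred Q],
      ∑ q ∈ univ.filter (fun q : ι × Z => P q.1 ∧ Q q.2), wt q =
        (∑ e ∈ univ.filter P, w e) * ∑ _ζ ∈ univ.filter Q, p := by
    intro P Q _ _
    rw [sum_mul_sum, ← sum_product', ← univ_product_univ, filter_product]
  have hdegA : ∀ v : β × (Y ⊕ ℕ), ∑ q ∈ univ.filter (fun q => v ∈ A q), wt q ≤ 1 := by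
    rintro ⟨l, z⟩
    rcases z with y | a
    · have h1 : (univ.filter (fun q : ι × Z => (l, Sum.inl y) ∈ A q)) =
          univ.filter (fun q : ι × Z => c q.1 l = some y ∧ True) := by
        ext q
        simp only [mem_filter, mem_univ, true_and, and_true]
        rw [hmemA, vtx_inl]
      rw [h1, hprod (fun e => c e l = some y) (fun _ => True)]
      rw [filter_true, hsum1, mul_one]
      exact hdeg l y
    · have h1 : (univ.filter (fun q : ι × Z => (l, Sum.inr a) ∈ A q)) =
          univ.filter (fun q : ι × Z => c q.1 l = none ∧ (q.2 l : ℕ) = a) := by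
        ext q
        simp only [mem_filter, mem_univ, true_and]
        rw [hmemA, vtx_inr]
      rw [h1, hprod (fun e => c e l = none) (fun ζ => (ζ l : ℕ) = a)]
      calc (∑ e ∈ univ.filter (fun e => c e l = none), w e) *
            ∑ _ζ ∈ univ.filter (fun ζ : Z => (ζ l : ℕ) = a), p ≤ Wn l * (1 / n l) :=
            mul_le_mul_of_nonneg_left (hc1 l a) (hWn0 l)
        _ ≤ 1 := by
            rw [mul_one_div, div_le_one (hn0 l)]
            have := hn1 l
            linarith
  have hcodegA : ∀ v v' : β × (Y ⊕ ℕ), v ≠ v' →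
      ∑ q ∈ univ.filter (fun q => v ∈ A q ∧ v' ∈ A q), wt q ≤ κ := by
    rintro ⟨l, z⟩ ⟨l', z'⟩ hvv
    by_cases hll : l = l'
    · subst hll
      have hzz : z ≠ z' := fun h => hvv (by rw [h])
      have h1 : (univ.filter (fun q : ι × Z => (l, z) ∈ A q ∧ (l, z') ∈ A q)) = ∅ := by
        rw [Finset.filter_eq_empty_iff]
        rintro q _ ⟨h, h'⟩
        rw [hmemA] at h h'
        exact hzz (h.symm.trans h')
      rw [h1, sum_empty]
      exact hκ.le
    · rcases z with y | a <;> rcases z' with y' | a'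
      · have h1 : (univ.filter (fun q : ι × Z => (l, Sum.inl y) ∈ A q ∧ (l', Sum.inl y') ∈ A q)) =
            univ.filter (fun q : ι × Z => (c q.1 l = some y ∧ c q.1 l' = some y') ∧ True) := by
          ext q
          simp only [mem_filter, mem_univ, true_and, and_true]
          rw [hmemA, hmemA, vtx_inl, vtx_inl]
        rw [h1, hprod (fun e => c e l = some y ∧ c e l' = some y') (fun _ => True)]
        rw [filter_true, hsum1, mul_one]
        exact hcodeg l l' y y' hll
      · have h1 : (univ.filter (fun q : ι × Z => (l, Sum.inl y) ∈ A q ∧ (l', Sum.inr a') ∈ A q)) ⊆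
            univ.filter (fun q : ι × Z => c q.1 l = some y ∧ (q.2 l' : ℕ) = a') := by
          intro q
          simp only [mem_filter, mem_univ, true_and]
          rw [hmemA, hmemA, vtx_inl, vtx_inr]
          rintro ⟨h, _, h'⟩
          exact ⟨h, h'⟩
        refine (sum_le_sum_of_subset_of_nonneg h1
          (fun q _ _ => mul_nonneg (hw0 _) hp0.le)).trans ?_
        rw [hprod (fun e => c e l = some y) (fun ζ => (ζ l' : ℕ) = a')]
        calc _ ≤ 1 * (1 / (n l' : ℝ)) := mul_le_mul (hdeg l y) (hc1 l' a')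
              (sum_nonneg fun _ _ => hp0.le) (by norm_num)
          _ ≤ κ := by rw [one_mul]; exact hninv l'
      · have h1 : (univ.filter (fun q : ι × Z => (l, Sum.inr a) ∈ A q ∧ (l', Sum.inl y') ∈ A q)) ⊆
            univ.filter (fun q : ι × Z => c q.1 l' = some y' ∧ (q.2 l : ℕ) = a) := by
          intro q
          simp only [mem_filter, mem_univ, true_and]
          rw [hmemA, hmemA, vtx_inl, vtx_inr]
          rintro ⟨⟨_, h⟩, h'⟩
          exact ⟨h', h⟩
        refine (sum_le_sum_of_subset_of_nonneg h1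
          (fun q _ _ => mul_nonneg (hw0 _) hp0.le)).trans ?_
        rw [hprod (fun e => c e l' = some y') (fun ζ => (ζ l : ℕ) = a)]
        calc _ ≤ 1 * (1 / (n l : ℝ)) := mul_le_mul (hdeg l' y') (hc1 l a)
              (sum_nonneg fun _ _ => hp0.le) (by norm_num)
          _ ≤ κ := by rw [one_mul]; exact hninv l
      · have h1 : (univ.filter (fun q : ι × Z => (l, Sum.inr a) ∈ A q ∧ (l', Sum.inr a') ∈ A q)) ⊆
            univ.filter (fun q : ι × Z => c q.1 l = none ∧
              ((q.2 l : ℕ) = a ∧ (q.2 l' : ℕ) = a')) := by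
          intro q
          simp only [mem_filter, mem_univ, true_and]
          rw [hmemA, hmemA, vtx_inr, vtx_inr]
          rintro ⟨⟨h, h'⟩, _, h''⟩
          exact ⟨h, h', h''⟩
        refine (sum_le_sum_of_subset_of_nonneg h1
          (fun q _ _ => mul_nonneg (hw0 _) hp0.le)).trans ?_
        rw [hprod (fun e => c e l = none) (fun ζ => (ζ l : ℕ) = a ∧ (ζ l' : ℕ) = a')]
        calc _ ≤ Wn l * (1 / n l * (1 / n l')) :=
              mul_le_mul_of_nonneg_left (hc2 l l' a a' hll) (hWn0 l)
          _ = (Wn l * (1 / n l)) * (1 / n l') := by ring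
          _ ≤ 1 * (1 / n l') := by
              refine mul_le_mul_of_nonneg_right ?_ (by have := hn0 l'; positivity)
              rw [mul_one_div, div_le_one (hn0 l)]
              have := hn1 l
              linarith
          _ ≤ κ := by rw [one_mul]; exact hninv l'
  have hcardA : ∀ q, (A q).card ≤ b := fun q =>
    (card_image_le.trans_eq card_univ).trans hb
  obtain ⟨M, hM1, hM2, hM3⟩ := hnib (ι × Z) (β × (Y ⊕ ℕ)) A wt
    (fun q => mul_nonneg (hw0 _) hp0.le)
    (fun q => ⟨(Classical.arbitrary β, vtx c q (Classical.arbitrary β)), by rw [hmemA]⟩)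
    hcardA hdegA hcodegA
    (fun q => by
      calc w q.1 * p ≤ w q.1 * 1 := mul_le_mul_of_nonneg_left hp1 (hw0 _)
        _ ≤ κ := by rw [mul_one]; exact hwκ _)
  have htot : ∑ q, wt q = ∑ e, w e := by
    rw [← univ_product_univ, sum_product]
    refine sum_congr rfl fun e _ => ?_
    simp only [wt]
    rw [← mul_sum, hsum1, mul_one]
  rw [htot] at hM3
  have hdisj : ∀ q ∈ M, ∀ q' ∈ M, q ≠ q' → ∀ l, vtx c q l ≠ vtx c q' l := by
    intro q hq q' hq' hne l heq
    have := hM1 q hq q' hq' hne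
    rw [Finset.disjoint_left] at this
    exact this ((hmemA q l _).2 rfl) ((hmemA q' l _).2 heq.symm)
  refine ⟨M.image Prod.fst, ?_, ?_, ?_⟩
  · intro e he
    obtain ⟨q, hq, rfl⟩ := mem_image.1 he
    have h := hM2 q hq
    exact (pos_iff_pos_of_mul_pos h).2 hp0
  · intro e he e' he' hne l y h h'
    obtain ⟨q, hq, rfl⟩ := mem_image.1 he
    obtain ⟨q', hq', rfl⟩ := mem_image.1 he'
    refine hdisj q hq q' hq' (fun h => hne (by rw [h])) l ?_
    rw [(vtx_inl c q l y).2 h, (vtx_inl c q' l y).2 h']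
  · intro l
    have hsplit := card_filter_add_card_filter_not (s := M) (fun q => c q.1 l ≠ none)
    have hreal : (M.filter (fun q => c q.1 l ≠ none)).card ≤
        ((M.image Prod.fst).filter (fun e => c e l ≠ none)).card := by
      refine Finset.card_le_card_of_injOn Prod.fst ?_ ?_
      · intro q hq
        have hq' := mem_filter.1 (mem_coe.1 hq)
        exact mem_coe.2 (mem_filter.2 ⟨mem_image_of_mem _ hq'.1, hq'.2⟩)
      · intro q hq q' hq' heq
        have h1 := mem_filter.1 (mem_coe.1 hq)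
        have h2 := mem_filter.1 (mem_coe.1 hq')
        by_contra hne
        obtain ⟨y, hy⟩ := Option.ne_none_iff_exists'.1 h1.2
        refine hdisj q h1.1 q' h2.1 hne l ?_
        rw [(vtx_inl c q l y).2 hy, (vtx_inl c q' l y).2 (by rw [← heq]; exact hy)]
    have hdum : (M.filter (fun q => ¬ c q.1 l ≠ none)).card ≤ n l := by
      rw [← Fintype.card_fin (n l), ← card_univ]
      refine Finset.card_le_card_of_injOn (fun q => q.2 l) (fun _ _ => mem_coe.2 (mem_univ _)) ?_
      intro q hq q' hq' heq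
      have h1 := mem_filter.1 (mem_coe.1 hq)
      have h2 := mem_filter.1 (mem_coe.1 hq')
      by_contra hne
      refine hdisj q h1.1 q' h2.1 hne l ?_
      have e1 := (vtx_inr c q l (q.2 l : ℕ)).2 ⟨not_not.1 h1.2, rfl⟩
      have e2 := (vtx_inr c q' l (q'.2 l : ℕ)).2 ⟨not_not.1 h2.2, rfl⟩
      have heq' : q.2 l = q'.2 l := heq
      rw [e1, e2, heq']
    have hW : (∑ e ∈ univ.filter (fun e => c e l ≠ none), w e) + Wn l = ∑ e, w e := by
      have := sum_filter_add_sum_filter_not (univ : Finset ι) (fun e => c e l ≠ none) w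
      rw [← this]
      congr 1
      simp only [hWn]
      refine sum_congr ?_ fun _ _ => rfl
      ext e
      simp
    have h1 : (M.card : ℝ) ≤ (((M.image Prod.fst).filter (fun e => c e l ≠ none)).card : ℝ) + n l := by
      have : M.card ≤ ((M.image Prod.fst).filter (fun e => c e l ≠ none)).card + n l := by omega
      exact_mod_cast this
    have h2 := hn2 l
    nlinarith

theorem sat_nibble (b : ℕ) (θ : ℝ) (hθ : 0 < θ) : ∃ κ : ℝ, 0 < κ ∧ SatP b θ κ := by
  obtain ⟨κ, hκ, hnib⟩ := nibble_TT b θ hθ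
  exact ⟨κ, hκ, sat_of_nib b θ κ hκ hnib⟩

end Pool.Agent.TH482
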