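import Pool.Agent.TH482.Defs
import Pool.Agent.H416Sens.Bollobas

/-!
# The upper bound: combinatorial part
-/

set_option autoImplicit false

namespace Pool.Agent.TH482

open Finset

/-- the vertices of an edge -/
def vts {r : ℕ} {V : Type} [DecidableEq V] (e : Fin r → V) : Finset (Fin r × V) :=
  univ.image (fun i => (i, e i))

theorem mem_vts {r : ℕ} {V : Type} [DecidableEq V] (e : Fin r → V) (i : Fin r) (v : V) :
    (i, v) ∈ vts e ↔ e i = v := by
  unfold vts
  rw [mem_image]
  constructor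
  · rintro ⟨j, _, h⟩
    rw [Prod.mk.injEq] at h
    rw [← h.2, h.1]
  · intro h
    exact ⟨i, mem_univ _, by rw [h]⟩

theorem card_vts {r : ℕ} {V : Type} [DecidableEq V] (e : Fin r → V) : (vts e).card = r := by
  unfold vts
  rw [card_image_of_injective _ (fun i j h => (Prod.mk.inj h).1), card_univ, Fintype.card_fin]

/-- a critical subfamily has at most `(r + t).choose r` members -/
theorem exists_critical {r : ℕ} {V : Type} [Fintype V] [DecidableEq V] (H : Finset (Fin r → V))
    (t : ℕ) (hH : ∀ T : Finset (Fin r × V), T.card ≤ t → ¬ IsCover H T) :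
    ∃ F ⊆ H, (∀ T : Finset (Fin r × V), T.card ≤ t → ¬ IsCover F T) ∧
      F.card ≤ (r + t).choose r := by
  classical
  let 𝓕 : Finset (Finset (Fin r → V)) := H.powerset.filter
    (fun F => ∀ T : Finset (Fin r × V), T.card ≤ t → ¬ IsCover F T)
  have h𝓕 : 𝓕.Nonempty := ⟨H, mem_filter.2 ⟨mem_powerset_self H, hH⟩⟩
  obtain ⟨F, hF, hmin⟩ := exists_min_image 𝓕 card h𝓕
  have hF' := mem_filter.1 hF
  refine ⟨F, mem_powerset.1 hF'.1, hF'.2, ?_⟩
  have hex : ∀ e : Fin r → V, ∃ T : Finset (Fin r × V), e ∈ F → (T.card ≤ t ∧ IsCover (F.erase e) T) := by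
    intro e
    by_cases he : e ∈ F
    · by_contra hcon
      push Not at hcon
      have hmem : F.erase e ∈ 𝓕 := by
        refine mem_filter.2 ⟨mem_powerset.2 ((erase_subset _ _).trans (mem_powerset.1 hF'.1)), ?_⟩
        intro T hT hc
        exact (hcon T).2 hT hc
      have h1 := hmin _ hmem
      have h2 := card_erase_lt_of_mem he
      omega
    · exact ⟨∅, fun h => absurd h he⟩
  choose B hB using hex
  have hbol := Pool.Agent.H416Sens.bollobas (univ : Finset (Fin r × V)) F (fun e => vts e) B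
    (fun _ _ => subset_univ _) (fun _ _ => subset_univ _)
    (by
      intro e he
      rw [Finset.disjoint_left]
      rintro ⟨i, v⟩ h1 h2
      rw [mem_vts] at h1
      refine hF'.2 (B e) (hB e he).1 ?_
      intro e' he'
      by_cases hee : e' = e
      · subst hee
        refine ⟨i, ?_⟩
        rw [h1]
        exact h2
      · exact (hB e he).2 e' (mem_erase.2 ⟨hee, he'⟩))
    (by
      intro e he e' he' hne hdis
      obtain ⟨i, hi⟩ := (hB e' he').2 e (mem_erase.2 ⟨hne, he⟩)
      rw [Finset.disjoint_left] at hdis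
      exact hdis ((mem_vts e i _).2 rfl) hi)
  have hterm : ∀ e ∈ F, (1 : ℝ) / ((r + t).choose r : ℝ) ≤
      1 / (((vts e).card + (B e).card).choose (vts e).card : ℝ) := by
    intro e he
    rw [card_vts]
    have hpos : (0 : ℝ) < ((r + (B e).card).choose r : ℝ) := by
      exact_mod_cast Nat.choose_pos (Nat.le_add_right _ _)
    refine one_div_le_one_div_of_le hpos ?_
    exact_mod_cast Nat.choose_le_choose r (Nat.add_le_add_left (hB e he).1 r)
  have h3 : (F.card : ℝ) * (1 / ((r + t).choose r : ℝ)) ≤ 1 := by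
    calc (F.card : ℝ) * (1 / ((r + t).choose r : ℝ)) = ∑ e ∈ F, (1 : ℝ) / ((r + t).choose r : ℝ) := by
          rw [sum_const, nsmul_eq_mul]
      _ ≤ _ := sum_le_sum hterm
      _ ≤ 1 := hbol
  have hpos : (0 : ℝ) < ((r + t).choose r : ℝ) := by
    exact_mod_cast Nat.choose_pos (Nat.le_add_right _ _)
  rw [mul_one_div, div_le_one hpos] at h3
  exact_mod_cast h3

/-- sampling: some transversal misses at most a `δ` fraction of `F` -/
theorem sampling {r : ℕ} {V : Type} [DecidableEq V] (F : Finset (Fin r → V)) (hF : F.Nonempty)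
    (k : ℕ) (δ : ℝ)
    (hk : ∀ S ⊆ F, S.card ≤ k → ∃ C : Fin r → V, ∀ e ∈ S, ∃ i, C i = e i)
    (hN : ((F.card : ℝ) + 1) ^ r * (1 - δ) ^ k < 1) :
    ∃ C : Fin r → V, ((F.filter (fun e => ∀ i, C i ≠ e i)).card : ℝ) ≤ δ * F.card := by
  classical
  by_contra hcon
  push Not at hcon
  obtain ⟨e₀, he₀⟩ := hF
  let ι := {e // e ∈ F}
  let Hit : (Fin r → Option ι) → Finset ι := fun g =>
    univ.filter (fun e => ∃ i e', g i = some e' ∧ e'.1 i = e.1 i)
  have hNpos : (0 : ℝ) < F.card := by
    have : 0 < F.card := card_pos.2 ⟨e₀, he₀⟩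
    exact_mod_cast this
  have hιc : Fintype.card ι = F.card := Fintype.card_coe F
  -- every `Hit g` is small
  have hsmall : ∀ g, ((Hit g).card : ℝ) ≤ (1 - δ) * F.card := by
    intro g
    let C : Fin r → V := fun i => match g i with
      | some e' => e'.1 i
      | none => e₀ i
    have h1 := hcon C
    have h2 : (Hit g).card ≤ (F.filter (fun e => ¬ ∀ i, C i ≠ e i)).card := by
      refine Finset.card_le_card_of_injOn (fun e => e.1) ?_ (fun _ _ _ _ h => Subtype.ext h)
      intro e he
      obtain ⟨i, e', hg, hee⟩ := (mem_filter.1 (mem_coe.1 he)).2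
      refine mem_coe.2 (mem_filter.2 ⟨e.2, ?_⟩)
      push Not
      refine ⟨i, ?_⟩
      simp only [C, hg]
      exact hee
    have h3 := card_filter_add_card_filter_not (s := F) (fun e => ∀ i, C i ≠ e i)
    have h3' : ((F.filter (fun e => ∀ i, C i ≠ e i)).card : ℝ) +
        ((F.filter (fun e => ¬ ∀ i, C i ≠ e i)).card : ℝ) = F.card := by exact_mod_cast h3
    have h2' : ((Hit g).card : ℝ) ≤ ((F.filter (fun e => ¬ ∀ i, C i ≠ e i)).card : ℝ) := by
      exact_mod_cast h2
    linarith
  -- every sequence is inside some `Hit g`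
  have hcov : (univ : Finset (Fin k → ι)) ⊆
      (univ : Finset (Fin r → Option ι)).biUnion (fun g => Fintype.piFinset (fun _ => Hit g)) := by
    intro s _
    have hS : (univ.image (fun j => (s j).1)) ⊆ F := by
      intro e he
      obtain ⟨j, _, rfl⟩ := mem_image.1 he
      exact (s j).2
    have hSc : (univ.image (fun j => (s j).1)).card ≤ k :=
      card_image_le.trans_eq (by rw [card_univ, Fintype.card_fin])
    obtain ⟨C, hC⟩ := hk _ hS hSc
    have hg : ∀ i, ∃ o : Option ι, (∀ e : ι, C i = e.1 i → ∃ e', o = some e' ∧ e'.1 i = C i) := by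
      intro i
      by_cases h : ∃ e : ι, C i = e.1 i
      · obtain ⟨e, he⟩ := h
        exact ⟨some e, fun _ _ => ⟨e, rfl, he.symm⟩⟩
      · exact ⟨none, fun e he => absurd ⟨e, he⟩ h⟩
    choose g hg using hg
    refine mem_biUnion.2 ⟨g, mem_univ _, ?_⟩
    rw [Fintype.mem_piFinset]
    intro j
    obtain ⟨i, hi⟩ := hC (s j).1 (mem_image.2 ⟨j, mem_univ _, rfl⟩)
    obtain ⟨e', h1, h2⟩ := hg i (s j) hi
    exact mem_filter.2 ⟨mem_univ _, i, e', h1, h2.trans hi⟩
  have h1 : (F.card : ℝ) ^ k ≤ ∑ g : Fin r → Option ι, ((Hit g).card : ℝ) ^ k := by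
    have h2 := (card_le_card hcov).trans card_biUnion_le
    rw [card_univ, Fintype.card_fun, Fintype.card_fin, hιc] at h2
    have h3 : ∀ g : Fin r → Option ι, (Fintype.piFinset (fun _ : Fin k => Hit g)).card =
        (Hit g).card ^ k := by
      intro g
      rw [Fintype.card_piFinset, prod_const, card_univ, Fintype.card_fin]
    rw [sum_congr rfl fun g _ => h3 g] at h2
    exact_mod_cast h2
  have h2 : ∑ g : Fin r → Option ι, ((Hit g).card : ℝ) ^ k ≤
      ∑ _g : Fin r → Option ι, ((1 - δ) * F.card) ^ k :=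
    sum_le_sum fun g _ => pow_le_pow_left₀ (Nat.cast_nonneg _) (hsmall g) k
  rw [sum_const, card_univ, Fintype.card_fun, Fintype.card_fin, Fintype.card_option, hιc,
    nsmul_eq_mul, mul_pow] at h2
  push_cast at h2
  have h3 : ((F.card : ℝ) + 1) ^ r * ((1 - δ) ^ k * (F.card : ℝ) ^ k) < (F.card : ℝ) ^ k := by
    have hp : (0 : ℝ) < (F.card : ℝ) ^ k := by positivity
    calc ((F.card : ℝ) + 1) ^ r * ((1 - δ) ^ k * (F.card : ℝ) ^ k)
        = (((F.card : ℝ) + 1) ^ r * (1 - δ) ^ k) * (F.card : ℝ) ^ k := by ring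
      _ < 1 * (F.card : ℝ) ^ k := mul_lt_mul_of_pos_right hN hp
      _ = _ := one_mul _
  linarith

/-- greedy covering by transversals -/
theorem greedy {r : ℕ} {V : Type} [DecidableEq V] [Nonempty V] (F : Finset (Fin r → V)) (δ : ℝ)
    (hδ : 0 ≤ δ)
    (h : ∀ F' ⊆ F, F'.Nonempty →
      ∃ C : Fin r → V, ((F'.filter (fun e => ∀ i, C i ≠ e i)).card : ℝ) ≤ δ * F'.card) (q : ℕ) :
    ∃ T : Finset (Fin r × V), T.card ≤ q * r ∧
      ((F.filter (fun e => ∀ i, (i, e i) ∉ T)).card : ℝ) ≤ δ ^ q * F.card := by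
  classical
  induction q with
  | zero =>
    refine ⟨∅, by simp, ?_⟩
    rw [pow_zero, one_mul]
    exact_mod_cast card_filter_le _ _
  | succ q ih =>
    obtain ⟨T, hT, hTF⟩ := ih
    set F' := F.filter (fun e => ∀ i, (i, e i) ∉ T) with hF'
    rcases F'.eq_empty_or_nonempty with hemp | hne
    · refine ⟨T, hT.trans (Nat.mul_le_mul_right _ (Nat.le_succ q)), ?_⟩
      rw [← hF', hemp, card_empty, Nat.cast_zero]
      exact mul_nonneg (pow_nonneg hδ _) (Nat.cast_nonneg _)
    · obtain ⟨C, hC⟩ := h F' (filter_subset _ _) hne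
      refine ⟨T ∪ vts C, ?_, ?_⟩
      · calc (T ∪ vts C).card ≤ T.card + (vts C).card := card_union_le _ _
          _ ≤ q * r + r := by rw [card_vts]; omega
          _ = (q + 1) * r := by ring
      · have hsub : F.filter (fun e => ∀ i, (i, e i) ∉ T ∪ vts C) ⊆
            F'.filter (fun e => ∀ i, C i ≠ e i) := by
          intro e he
          have he' := mem_filter.1 he
          rw [mem_filter, hF', mem_filter]
          refine ⟨⟨he'.1, fun i hi => he'.2 i (mem_union_left _ hi)⟩, fun i hi => ?_⟩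
          exact he'.2 i (mem_union_right _ ((mem_vts C i _).2 hi))
        calc ((F.filter (fun e => ∀ i, (i, e i) ∉ T ∪ vts C)).card : ℝ)
            ≤ ((F'.filter (fun e => ∀ i, C i ≠ e i)).card : ℝ) := by
              exact_mod_cast card_le_card hsub
          _ ≤ δ * F'.card := hC
          _ ≤ δ * (δ ^ q * F.card) := mul_le_mul_of_nonneg_left hTF hδ
          _ = δ ^ (q + 1) * F.card := by ring

/-- the upper bound with parameters -/
theorem upper_step {r n k : ℕ} (H : Finset (Fin r → Fin n)) (hH : IntCov k H) (t q : ℕ) (δ : ℝ)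
    (hδ0 : 0 ≤ δ) (hδ1 : δ ≤ 1)
    (hN : (((r + t).choose r : ℝ) + 1) ^ r * (1 - δ) ^ k < 1)
    (hq : δ ^ q * ((r + t).choose r : ℝ) < 1) (hqt : q * r ≤ t) : tau H ≤ t := by
  classical
  by_contra hcon
  rw [not_le] at hcon
  have hno : ∀ T : Finset (Fin r × Fin n), T.card ≤ t → ¬ IsCover H T := by
    intro T hT hc
    have : tau H ≤ T.card := Nat.sInf_le ⟨T, hc, rfl⟩
    omega
  obtain ⟨F, hFH, hF, hFc⟩ := exists_critical H t hno
  obtain ⟨C, hC1, _⟩ := hH
  have hFne : F.Nonempty := by
    by_contra h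
    rw [not_nonempty_iff_eq_empty] at h
    refine hF ∅ (by simp) ?_
    intro e he
    rw [h] at he
    exact absurd he (notMem_empty e)
  have hnr : Nonempty (Fin n) ∨ r = 0 := by
    obtain ⟨e, _⟩ := hFne
    rcases Nat.eq_zero_or_pos r with h0 | h0
    · exact Or.inr h0
    · exact Or.inl ⟨e ⟨0, h0⟩⟩
  rcases hnr with hn | h0
  · have hFcr : (F.card : ℝ) ≤ ((r + t).choose r : ℝ) := by exact_mod_cast hFc
    obtain ⟨T, hT, hTF⟩ := greedy F δ hδ0 (by
      intro F' hF' hne
      refine sampling F' hne k δ ?_ ?_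
      · intro S hS hSk
        exact ⟨C S, (hC1 S (hS.trans (hF'.trans hFH)) hSk).2⟩
      · refine lt_of_le_of_lt ?_ hN
        refine mul_le_mul_of_nonneg_right ?_ (pow_nonneg (by linarith) k)
        refine pow_le_pow_left₀ (by positivity) ?_ r
        have : (F'.card : ℝ) ≤ F.card := by exact_mod_cast card_le_card hF'
        linarith) q
    refine hF T (hT.trans hqt) ?_
    have h1 : ((F.filter (fun e => ∀ i, (i, e i) ∉ T)).card : ℝ) < 1 := by
      refine lt_of_le_of_lt (hTF.trans ?_) hq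
      exact mul_le_mul_of_nonneg_left hFcr (pow_nonneg hδ0 q)
    have h2 : (F.filter (fun e => ∀ i, (i, e i) ∉ T)).card = 0 := by
      have : (F.filter (fun e => ∀ i, (i, e i) ∉ T)).card < 1 := by exact_mod_cast h1
      omega
    rw [card_eq_zero] at h2
    intro e he
    by_contra hno'
    push Not at hno'
    have : e ∈ F.filter (fun e => ∀ i, (i, e i) ∉ T) := mem_filter.2 ⟨he, hno'⟩
    rw [h2] at this
    exact absurd this (notMem_empty e)
  · subst h0
    -- r = 0
    obtain ⟨e, he⟩ := hFne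
    have h1 := (hC1 ∅ (empty_subset _) (by simp)).1
    have hk0 : k = 0 ∨ 1 ≤ k := by omega
    rcases hk0 with hk0 | hk1
    · subst hk0
      simp at hN
    · obtain ⟨i, _⟩ := (hC1 {e} (by intro x hx; rw [mem_singleton.1 hx]; exact hFH he)
        (by rw [card_singleton]; exact hk1)).2 e (mem_singleton_self e)
      exact Fin.elim0 i

/-- the trivial bound -/
theorem trivial_bound {r n k : ℕ} (hr : 0 < r) (hrk : r < k) (H : Finset (Fin r → Fin n))
    (hH : IntCov k H) : tau H ≤ r ^ 2 := by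
  classical
  obtain ⟨C, hC1, _⟩ := hH
  let 𝓜 : Finset (Finset (Fin r → Fin n)) := H.powerset.filter
    (fun M => ∀ e ∈ M, ∀ e' ∈ M, e ≠ e' → ∀ i, e i ≠ e' i)
  have h𝓜 : 𝓜.Nonempty := ⟨∅, mem_filter.2 ⟨empty_mem_powerset _, by simp⟩⟩
  obtain ⟨M, hM, hmax⟩ := exists_max_image 𝓜 card h𝓜
  have hM' := mem_filter.1 hM
  have hMH := mem_powerset.1 hM'.1
  have hMr : M.card ≤ r := by
    by_contra hcon
    rw [not_le] at hcon
    obtain ⟨S, hSM, hSc⟩ := exists_subset_card_eq (n := r + 1) hcon
    have hS := (hC1 S (hSM.trans hMH) (by omega)).2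
    have hch : ∀ e : Fin r → Fin n, ∃ i : Fin r, e ∈ S → C S i = e i := by
      intro e
      by_cases he : e ∈ S
      · obtain ⟨i, hi⟩ := hS e he
        exact ⟨i, fun _ => hi⟩
      · exact ⟨⟨0, hr⟩, fun h => absurd h he⟩
    choose g hg using hch
    have hle : S.card ≤ (univ : Finset (Fin r)).card := by
      refine Finset.card_le_card_of_injOn g (fun _ _ => mem_coe.2 (mem_univ _)) ?_
      intro e he e' he' hgg
      by_contra hne
      have h1 := hg e (mem_coe.1 he)
      have h2 := hg e' (mem_coe.1 he')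
      rw [← hgg] at h2
      exact hM'.2 e (hSM (mem_coe.1 he)) e' (hSM (mem_coe.1 he')) hne (g e) (h1.symm.trans h2)
    rw [hSc, card_univ, Fintype.card_fin] at hle
    omega
  have hcov : IsCover H (M.biUnion vts) := by
    intro e he
    by_contra hno
    push Not at hno
    have hdis : ∀ e' ∈ M, ∀ i, e i ≠ e' i := by
      intro e' he' i heq
      refine hno i (mem_biUnion.2 ⟨e', he', ?_⟩)
      rw [mem_vts]
      exact heq.symm
    have heM : e ∉ M := fun h => hdis e h ⟨0, hr⟩ rfl
    have hins : insert e M ∈ 𝓜 := by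
      refine mem_filter.2 ⟨mem_powerset.2 (insert_subset he hMH), ?_⟩
      intro a ha b hb hab i
      rcases mem_insert.1 ha with rfl | ha'
      · rcases mem_insert.1 hb with rfl | hb'
        · exact absurd rfl hab
        · exact hdis b hb' i
      · rcases mem_insert.1 hb with rfl | hb'
        · exact fun h => hdis a ha' i h.symm
        · exact hM'.2 a ha' b hb' hab i
    have := hmax _ hins
    rw [card_insert_of_notMem heM] at this
    omega
  have h1 : tau H ≤ (M.biUnion vts).card := Nat.sInf_le ⟨_, hcov, rfl⟩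
  have h2 : (M.biUnion vts).card ≤ M.card * r := by
    refine card_biUnion_le_card_mul _ _ _ fun e _ => (card_vts e).le
  calc tau H ≤ M.card * r := h1.trans h2
    _ ≤ r * r := Nat.mul_le_mul_right _ hMr
    _ = r ^ 2 := by ring

end Pool.Agent.TH482
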