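import Pool.Agent.TH482.Upper

/-!
# The upper bound: choice of the parameters
-/

set_option autoImplicit false

namespace Pool.Agent.TH482

open Finset

/-- `log ((r + t).choose r) ≤ r * (1 + log (1 + t / r))` -/
theorem choose_bound (r t : ℕ) (hr : 0 < r) :
    ((r + t).choose r : ℝ) ≤ Real.exp (r * (1 + Real.log (1 + t / r))) := by
  have hr0 : (0 : ℝ) < r := by exact_mod_cast hr
  have h1 : ((r + t).choose r : ℝ) ≤ ((r + t : ℕ) : ℝ) ^ r / (r.factorial : ℝ) :=
    Nat.choose_le_pow_div r (r + t)
  have h2 : (r : ℝ) ^ r / (r.factorial : ℝ) ≤ Real.exp r := Real.pow_div_factorial_le_exp r hr0.le r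
  have h3 : (0 : ℝ) < 1 + t / r := by positivity
  have h4 : ((r + t : ℕ) : ℝ) = r * (1 + t / r) := by
    push_cast
    field_simp
  rw [h4, mul_pow, mul_div_right_comm] at h1
  calc ((r + t).choose r : ℝ) ≤ (r : ℝ) ^ r / (r.factorial : ℝ) * (1 + t / r) ^ r := h1
    _ ≤ Real.exp r * (1 + t / r) ^ r := mul_le_mul_of_nonneg_right h2 (by positivity)
    _ = Real.exp r * Real.exp (r * Real.log (1 + t / r)) := by
        rw [mul_comm (r : ℝ) (Real.log _), ← Real.rpow_natCast (1 + (t : ℝ) / r) r,
          Real.rpow_def_of_pos h3]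
    _ = _ := by rw [← Real.exp_add]; ring_nf

theorem upper (r k : ℕ) (hr : 0 < r) (hrk : r < k) (hk : Real.log k ≤ r) (n : ℕ)
    (H : Finset (Fin r → Fin n)) (hH : IntCov k H) :
    (tau H : ℝ) ≤ 100 * ((r : ℝ) ^ 2 / Real.log k) * (1 + Real.log (r / Real.log k)) := by
  have hr0 : (0 : ℝ) < r := by exact_mod_cast hr
  have hr1 : (1 : ℝ) ≤ r := by exact_mod_cast hr
  have hk1 : (1 : ℝ) < k := by exact_mod_cast (show 1 < k by omega)
  have hk0 : (0 : ℝ) < k := by linarith
  set y : ℝ := Real.log k with hy
  have hy0 : 0 < y := Real.log_pos hk1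
  set x : ℝ := r / y with hx
  have hx1 : 1 ≤ x := by rw [hx, le_div_iff₀ hy0, one_mul]; exact hk
  have hx0 : 0 < x := by linarith
  have hlx : 0 ≤ Real.log x := Real.log_nonneg hx1
  have hr2x : (r : ℝ) ^ 2 / y = r * x := by rw [hx]; ring
  rw [hr2x]
  by_cases hbig : (64 : ℝ) * (r : ℝ) ^ 6 ≤ k
  · -- large `k`
    set t : ℕ := ⌊20 * (r * x) * (1 + Real.log x)⌋₊ with ht
    have ht0 : 0 ≤ 20 * (r * x) * (1 + Real.log x) := by positivity
    have ht1 : (t : ℝ) ≤ 20 * (r * x) * (1 + Real.log x) := Nat.floor_le ht0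
    have ht2 : 20 * (r * x) * (1 + Real.log x) < t + 1 := Nat.lt_floor_add_one _
    -- the number of edges
    have hlx' : Real.log x ≤ x - 1 := Real.log_le_sub_one_of_pos hx0
    have htr : 1 + (t : ℝ) / r ≤ 21 * x ^ 2 := by
      have h1 : (t : ℝ) / r ≤ 20 * x * x := by
        rw [div_le_iff₀ hr0]
        calc (t : ℝ) ≤ 20 * (r * x) * (1 + Real.log x) := ht1
          _ ≤ 20 * (r * x) * x := mul_le_mul_of_nonneg_left (by linarith) (by positivity)
          _ = _ := by ring
      nlinarith
    have htr0 : (0 : ℝ) < 1 + t / r := by positivity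
    have hlog : Real.log (1 + t / r) ≤ 3.1 + 2 * Real.log x := by
      have h1 : Real.log (1 + t / r) ≤ Real.log (21 * x ^ 2) := Real.log_le_log htr0 htr
      rw [Real.log_mul (by norm_num) (by positivity), Real.log_pow] at h1
      push_cast at h1
      have h2 : Real.log 21 ≤ 3.1 := by
        rw [Real.log_le_iff_le_exp (by norm_num)]
        have h3 : (2.7182818283 : ℝ) ≤ Real.exp 1 := Real.exp_one_gt_d9.le
        have h4 : Real.exp 3 = Real.exp 1 ^ 3 := by
          rw [← Real.exp_nat_mul]
          norm_num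
        have h5 : (2.7182818283 : ℝ) ^ 3 ≤ Real.exp 3 := by
          rw [h4]
          exact pow_le_pow_left₀ (by norm_num) h3 3
        have h6 : Real.exp 3.1 = Real.exp 3 * Real.exp 0.1 := by
          rw [← Real.exp_add]
          norm_num
        have h7 : (1.1 : ℝ) ≤ Real.exp 0.1 := by
          have := Real.add_one_le_exp (0.1 : ℝ)
          linarith
        rw [h6]
        calc (21 : ℝ) ≤ 2.7182818283 ^ 3 * 1.1 := by norm_num
          _ ≤ Real.exp 3 * Real.exp 0.1 := mul_le_mul h5 h7 (by norm_num) (Real.exp_pos _).le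
      linarith
    set L : ℝ := r * (4.1 + 2 * Real.log x) with hL
    have hN : ((r + t).choose r : ℝ) ≤ Real.exp L := by
      refine (choose_bound r t hr).trans ?_
      rw [Real.exp_le_exp, hL]
      refine mul_le_mul_of_nonneg_left ?_ hr0.le
      linarith
    have hN1 : (1 : ℝ) ≤ ((r + t).choose r : ℝ) := by
      exact_mod_cast Nat.choose_pos (Nat.le_add_right _ _)
    have hL0 : 0 < L := by rw [hL]; positivity
    -- `δ`
    set δ : ℝ := Real.exp (-(y / 2)) with hδ
    have hδ0 : 0 < δ := Real.exp_pos _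
    have hδ1 : δ ≤ 1 := by
      rw [hδ, Real.exp_le_one_iff]
      linarith
    set s : ℝ := Real.exp (y / 2) with hs
    have hs2 : s * s = k := by
      rw [hs, ← Real.exp_add, add_halves, hy, Real.exp_log hk0]
    have hs0 : 0 < s := Real.exp_pos _
    have hkδ : (k : ℝ) * δ = s := by
      have h1 : s * δ = 1 := by
        rw [hs, hδ, ← Real.exp_add]
        simp
      calc (k : ℝ) * δ = s * (s * δ) := by rw [← hs2]; ring
        _ = s := by rw [h1, mul_one]
    have hs8 : 8 * (r : ℝ) ^ 3 ≤ s := by
      by_contra hcon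
      push Not at hcon
      have h1 : s * s < (8 * (r : ℝ) ^ 3) * (8 * (r : ℝ) ^ 3) :=
        mul_lt_mul'' hcon hcon hs0.le hs0.le
      rw [hs2] at h1
      have h2 : (8 * (r : ℝ) ^ 3) * (8 * (r : ℝ) ^ 3) = 64 * (r : ℝ) ^ 6 := by ring
      rw [h2] at h1
      linarith
    have hlogr : Real.log x ≤ r - 1 := by
      have hxr : x ≤ r / y := le_rfl
      -- `y ≥ log 64 > 1`
      have hy1 : 1 ≤ y := by
        rw [hy, Real.le_log_iff_exp_le hk0]
        have h1 := Real.exp_one_lt_d9
        have h2 : (1 : ℝ) ≤ (r : ℝ) ^ 6 := one_le_pow₀ hr1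
        linarith
      have hxr' : x ≤ r := by
        rw [hx]
        exact div_le_self hr0.le hy1
      linarith
    have hN' : (((r + t).choose r : ℝ) + 1) ^ r * (1 - δ) ^ k < 1 := by
      have h1 : ((r + t).choose r : ℝ) + 1 ≤ Real.exp (L + 1) := by
        rw [Real.exp_add]
        have h2 : (2 : ℝ) ≤ Real.exp 1 := by
          have := Real.add_one_le_exp (1 : ℝ)
          linarith
        have h3 : 1 ≤ Real.exp L := Real.one_le_exp hL0.le
        nlinarith
      have h2 : (((r + t).choose r : ℝ) + 1) ^ r ≤ Real.exp (r * (L + 1)) := by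
        calc (((r + t).choose r : ℝ) + 1) ^ r ≤ Real.exp (L + 1) ^ r :=
              pow_le_pow_left₀ (by positivity) h1 r
          _ = _ := by rw [← Real.exp_nat_mul]
      have h3 : (1 - δ) ^ k ≤ Real.exp (-s) := by
        have h4 : 1 - δ ≤ Real.exp (-δ) := by
          have := Real.add_one_le_exp (-δ)
          linarith
        calc (1 - δ) ^ k ≤ Real.exp (-δ) ^ k := pow_le_pow_left₀ (by linarith) h4 k
          _ = Real.exp (-s) := by
            rw [← Real.exp_nat_mul, ← hkδ]
            ring_nf
      have h4 : r * (L + 1) < s := by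
        have h5 : L ≤ r * (4.1 + 2 * (r - 1)) := by
          rw [hL]
          exact mul_le_mul_of_nonneg_left (by linarith) hr0.le
        have h6 : (r : ℝ) * (L + 1) ≤ r * (r * (4.1 + 2 * (r - 1)) + 1) :=
          mul_le_mul_of_nonneg_left (by linarith) hr0.le
        have h7 : (r : ℝ) ≤ r ^ 3 := by
          calc (r : ℝ) = r ^ 1 := (pow_one _).symm
            _ ≤ r ^ 3 := pow_le_pow_right₀ hr1 (by norm_num)
        have h8 : (r : ℝ) ^ 2 ≤ r ^ 3 := pow_le_pow_right₀ hr1 (by norm_num)
        have h9 : (r : ℝ) * (r * (4.1 + 2 * (r - 1)) + 1) = 2 * r ^ 3 + 2.1 * r ^ 2 + r := by ring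
        have h10 : (0 : ℝ) < r ^ 3 := by positivity
        linarith
      calc (((r + t).choose r : ℝ) + 1) ^ r * (1 - δ) ^ k
          ≤ Real.exp (r * (L + 1)) * Real.exp (-s) :=
            mul_le_mul h2 h3 (pow_nonneg (by linarith) k) (Real.exp_pos _).le
        _ = Real.exp (r * (L + 1) - s) := by rw [← Real.exp_add]; ring_nf
        _ < 1 := by rw [Real.exp_lt_one_iff]; linarith
    -- `q`
    set q : ℕ := ⌊2 * L / y⌋₊ + 1 with hq
    have hq1 : 2 * L / y < q := by
      have := Nat.lt_floor_add_one (2 * L / y)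
      rw [hq]
      push_cast
      exact this
    have hq2 : (q : ℝ) ≤ 2 * L / y + 1 := by
      have : ((⌊2 * L / y⌋₊ : ℕ) : ℝ) ≤ 2 * L / y := Nat.floor_le (by positivity)
      rw [hq]
      push_cast
      linarith
    have hqN : δ ^ q * ((r + t).choose r : ℝ) < 1 := by
      have h1 : δ ^ q = Real.exp (-(q * y / 2)) := by
        rw [hδ, ← Real.exp_nat_mul]
        ring_nf
      rw [div_lt_iff₀ hy0] at hq1
      calc δ ^ q * ((r + t).choose r : ℝ) ≤ Real.exp (-(q * y / 2)) * Real.exp L := by
            rw [h1]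
            exact mul_le_mul_of_nonneg_left hN (Real.exp_pos _).le
        _ = Real.exp (L - q * y / 2) := by rw [← Real.exp_add]; ring_nf
        _ < 1 := by rw [Real.exp_lt_one_iff]; linarith
    have hqt : q * r ≤ t := by
      have h1 : (q : ℝ) * r ≤ 20 * (r * x) * (1 + Real.log x) - 1 := by
        have h2 : 2 * L / y = 2 * x * (4.1 + 2 * Real.log x) := by
          rw [hL, hx]
          ring
        rw [h2] at hq2
        calc (q : ℝ) * r ≤ (2 * x * (4.1 + 2 * Real.log x) + 1) * r :=
              mul_le_mul_of_nonneg_right hq2 hr0.le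
          _ ≤ _ := by
            have hrx : 1 ≤ r * x := by nlinarith
            have hrxr : (r : ℝ) ≤ r * x := by nlinarith
            have hpos : 0 ≤ r * x * Real.log x := by positivity
            nlinarith
      have h3 : (q : ℝ) * r < t := by linarith
      have h4 : ((q * r : ℕ) : ℝ) < t := by push_cast; exact h3
      have h5 : q * r < t := by exact_mod_cast h4
      exact h5.le
    have hmain := upper_step H hH t q δ hδ0.le hδ1 hN' hqN hqt
    have h1 : (tau H : ℝ) ≤ t := by exact_mod_cast hmain
    have h2 : 0 ≤ r * x * (1 + Real.log x) := by positivity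
    nlinarith
  · -- small `k`
    push Not at hbig
    have htriv := trivial_bound hr hrk H hH
    have h1 : (tau H : ℝ) ≤ (r : ℝ) ^ 2 := by exact_mod_cast htriv
    refine h1.trans ?_
    have hxy : x * y = r := by rw [hx]; field_simp
    -- enough : `y ≤ 100 * (1 + log x)`
    have hkey : y ≤ 100 * (1 + Real.log x) := by
      have h2 : y ≤ Real.log 64 + 6 * Real.log r := by
        have h3 := Real.log_le_log hk0 hbig.le
        rw [Real.log_mul (by norm_num) (by positivity), Real.log_pow] at h3
        push_cast at h3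
        exact h3
      have h64 : Real.log 64 ≤ 4.2 := by
        have h3 : Real.log 64 = 6 * Real.log 2 := by
          rw [show (64 : ℝ) = 2 ^ 6 by norm_num, Real.log_pow]
          norm_num
        have h4 := Real.log_two_lt_d9
        rw [h3]
        linarith
      have h3 : Real.log x = Real.log r - Real.log y := by
        rw [hx, Real.log_div hr0.ne' hy0.ne']
      by_cases hy100 : y ≤ 100
      · nlinarith
      · push Not at hy100
        have h4 : Real.log y ≤ y / 20 + 3 := by
          have h5 : Real.log (y / 20) ≤ y / 20 - 1 := Real.log_le_sub_one_of_pos (by positivity)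
          rw [Real.log_div hy0.ne' (by norm_num)] at h5
          have h6 : Real.log 20 ≤ 4 := by
            rw [Real.log_le_iff_le_exp (by norm_num)]
            have h3 : (2.7 : ℝ) ≤ Real.exp 1 := by
              have := Real.exp_one_gt_d9
              linarith
            have h4 : Real.exp 4 = Real.exp 1 ^ 4 := by
              rw [← Real.exp_nat_mul]
              norm_num
            rw [h4]
            calc (20 : ℝ) ≤ 2.7 ^ 4 := by norm_num
              _ ≤ _ := pow_le_pow_left₀ (by norm_num) h3 4
          linarith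
        have h5 : (y - 4.2) / 6 ≤ Real.log r := by linarith
        rw [h3]
        linarith
    have h2 : (r : ℝ) ^ 2 = r * x * y := by rw [mul_assoc, hxy]; ring
    rw [h2]
    calc (r : ℝ) * x * y ≤ r * x * (100 * (1 + Real.log x)) :=
          mul_le_mul_of_nonneg_left hkey (by positivity)
      _ = _ := by ring

end Pool.Agent.TH482
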